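import Mathlib

/-!
MP_5aa732_co, project TD92: every odd-hole-free graph with no induced `K_{1,3} ∪ K_1` is 2-divisible.

Conventions: `m = ω - 1 ≥ 1`; `G.IsNClique (m+1) K` : `K` is a maximum clique; `G.CliqueFree (m+2)`.
A colouring `c : V → Bool` is a partition of `V` in two parts.
`St G m c z` : no monochromatic `(m+1)`-clique avoids `z` (a 2-division of `G - z`).
-/

set_option autoImplicit false
set_option linter.unusedSectionVars false
set_option linter.unusedVariables false

namespace Pool.Agent.H92.TD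

open SimpleGraph Finset

/-- Every monochromatic `(m+1)`-clique contains `z`. -/
def St {V : Type} (G : SimpleGraph V) (m : ℕ) (c : V → Bool) (z : V) : Prop :=
  ∀ (K : Finset V), G.IsNClique (m + 1) K → ∀ b : Bool, (∀ x ∈ K, c x = b) → z ∈ K

/-- No induced `C_5` (distinctness of the five vertices follows from the adjacency pattern). -/
def C5free {V : Type} (G : SimpleGraph V) : Prop :=
  ∀ a b c d e : V, G.Adj a b → G.Adj b c → G.Adj c d → G.Adj d e → G.Adj e a →
    ¬ G.Adj a c → ¬ G.Adj b d → ¬ G.Adj c e → ¬ G.Adj d a → ¬ G.Adj e b → False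

/-- No induced claw plus isolated vertex. -/
def ClawK1free {V : Type} (G : SimpleGraph V) : Prop :=
  ∀ v a b c k : V, G.Adj v a → G.Adj v b → G.Adj v c → a ≠ b → b ≠ c → a ≠ c →
    ¬ G.Adj a b → ¬ G.Adj b c → ¬ G.Adj a c →
    k ≠ v → ¬ G.Adj k v → ¬ G.Adj k a → ¬ G.Adj k b → ¬ G.Adj k c → False

/-- No induced claw. -/
def Clawfree {V : Type} (G : SimpleGraph V) : Prop :=
  ∀ v a b c : V, G.Adj v a → G.Adj v b → G.Adj v c → a ≠ b → b ≠ c → a ≠ c →
    ¬ G.Adj a b → ¬ G.Adj b c → ¬ G.Adj a c → False

/-- No induced odd cycle of length at least five. -/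
def OddHoleFree {V : Type} (G : SimpleGraph V) : Prop :=
  ∀ k : ℕ, 2 ≤ k → IsEmpty (SimpleGraph.cycleGraph (2 * k + 1) ↪g G)

/-- The properties of a vertex-minimal counterexample with clique number `m + 1`. -/
structure MinCE {V : Type} (G : SimpleGraph V) (m : ℕ) : Prop where
  one : 1 ≤ m
  free : G.CliqueFree (m + 2)
  bad : ∀ c : V → Bool, ∃ b : Bool, ∃ K : Finset V, G.IsNClique (m + 1) K ∧ ∀ x ∈ K, c x = b
  min : ∀ z : V, ∃ c : V → Bool, St G m c z
  c5 : C5free G

/-- Vertices outside `K` without neighbour in `K`. -/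
def Rem {V : Type} (G : SimpleGraph V) (K : Finset V) (y : V) : Prop :=
  y ∉ K ∧ ∀ k ∈ K, ¬ G.Adj y k

/-- Vertices outside `K` with a neighbour in `K`. -/
def D1 {V : Type} (G : SimpleGraph V) (K : Finset V) (z : V) : Prop :=
  z ∉ K ∧ ∃ k ∈ K, G.Adj z k

open Classical in
/-- The neighbours of `z` of colour `b`. -/
noncomputable def NC {V : Type} [Fintype V] (G : SimpleGraph V) (c : V → Bool) (b : Bool) (z : V) :
    Finset V :=
  Finset.univ.filter (fun x => G.Adj z x ∧ c x = b)

open Classical in
/-- The neighbours of `z`. -/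
noncomputable def Nb {V : Type} [Fintype V] (G : SimpleGraph V) (z : V) : Finset V :=
  Finset.univ.filter (fun x => G.Adj z x)

/-- Nice vertex: degree at most `2 ω - 2`. -/
def Nice {V : Type} [Fintype V] (G : SimpleGraph V) (m : ℕ) (z : V) : Prop :=
  (Nb G z).card ≤ 2 * m

section basics
variable {V : Type} [Fintype V] {G : SimpleGraph V} {m : ℕ}

theorem mem_NC {c : V → Bool} {b : Bool} {z x : V} : x ∈ NC G c b z ↔ G.Adj z x ∧ c x = b := by
  classical
  simp [NC]

theorem mem_Nb {z x : V} : x ∈ Nb G z ↔ G.Adj z x := by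
  classical
  simp [Nb]

theorem NC_sub {c : V → Bool} {b : Bool} {z : V} : NC G c b z ⊆ Nb G z := by
  intro x hx; rw [mem_NC] at hx; rw [mem_Nb]; exact hx.1

/-- a vertex adjacent to all members of an `n`-clique gives an `(n+1)`-clique. -/
theorem clique_insert {K : Finset V} {n : ℕ} {v : V} [DecidableEq V] (hK : G.IsNClique n K)
    (h : ∀ k ∈ K, G.Adj v k) : G.IsNClique (n + 1) (insert v K) :=
  hK.insert h

/-- a clique contains cliques of every smaller size. -/
theorem sub_clique {K : Finset V} {n : ℕ} (hK : G.IsClique (K : Set V)) (hn : n ≤ K.card) :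
    ∃ L ⊆ K, G.IsNClique n L := by
  obtain ⟨L, hL, hc⟩ := Finset.exists_subset_card_eq hn
  exact ⟨L, hL, ⟨hK.subset (by exact_mod_cast hL), hc⟩⟩

/-- cliques have at most `m+1` elements. -/
theorem card_le_of_clique (hf : G.CliqueFree (m + 2)) {K : Finset V} (hK : G.IsClique (K : Set V)) :
    K.card ≤ m + 1 := by
  by_contra hc
  push Not at hc
  obtain ⟨L, _, hL⟩ := sub_clique (n := m + 2) hK (by omega)
  exact hf L hL

/-- a clique of neighbours of `z` has at most `m` elements. -/
theorem card_le_of_clique_nb (hf : G.CliqueFree (m + 2)) {K : Finset V} {z : V}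
    (hK : G.IsClique (K : Set V)) (hz : ∀ x ∈ K, G.Adj z x) : K.card ≤ m := by
  classical
  have hzK : z ∉ K := fun h => G.loopless.irrefl z (hz z h)
  have h1 : G.IsNClique (K.card + 1) (insert z K) := clique_insert ⟨hK, rfl⟩ hz
  have := card_le_of_clique hf h1.1
  rw [h1.2] at this
  omega

/-- a vertex outside a maximum clique has a non-neighbour in it. -/
theorem not_complete (hf : G.CliqueFree (m + 2)) {K : Finset V} (hK : G.IsNClique (m + 1) K) {v : V}
    (hv : v ∉ K) : ∃ k ∈ K, ¬ G.Adj v k := by
  classical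
  by_contra hc
  push Not at hc
  exact hf _ (clique_insert hK hc)

/-- (G1) -/
theorem exists_remote (h : MinCE G m) (v : V) : ∃ K : Finset V, G.IsNClique (m + 1) K ∧ Rem G K v := by
  classical
  obtain ⟨b, K, hK, hb⟩ := h.bad (fun x => decide (G.Adj v x))
  have h1 := h.one
  cases b with
  | true =>
    exfalso
    refine h.free _ (clique_insert hK (v := v) ?_)
    intro k hk
    simpa using hb k hk
  | false =>
    have hn : ∀ k ∈ K, ¬ G.Adj v k := fun k hk => by simpa using hb k hk
    refine ⟨K, hK, ?_, hn⟩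
    intro hv
    have hcard : 1 < K.card := by rw [hK.2]; omega
    obtain ⟨a, ha, hav⟩ := Finset.exists_mem_ne hcard v
    exact hn a ha (hK.1 hv ha (Ne.symm hav))

/-- (G2) -/
theorem exists_clique_NC (h : MinCE G m) {c : V → Bool} {v : V} (hc : St G m c v) (b : Bool) :
    ∃ L ⊆ NC G c b v, G.IsNClique m L := by
  classical
  obtain ⟨b', K, hK, hb⟩ := h.bad (Function.update c v b)
  have hv : v ∈ K := by
    by_contra hv
    refine hv (hc K hK b' ?_)
    intro x hx
    have : x ≠ v := fun e => hv (e ▸ hx)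
    have h2 := hb x hx
    rwa [Function.update_of_ne this] at h2
  have hbb : b = b' := by simpa using hb v hv
  subst hbb
  refine ⟨K.erase v, ?_, ?_, ?_⟩
  · intro x hx
    rw [Finset.mem_erase] at hx
    rw [mem_NC]
    refine ⟨hK.1 hv hx.2 (Ne.symm hx.1), ?_⟩
    have h2 := hb x hx.2
    rwa [Function.update_of_ne hx.1] at h2
  · exact hK.1.subset (by exact_mod_cast Finset.erase_subset _ _)
  · rw [Finset.card_erase_of_mem hv, hK.2]; rfl

theorem card_NC_add (c : V → Bool) (z : V) :
    (NC G c true z).card + (NC G c false z).card = (Nb G z).card := by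
  classical
  rw [← Finset.card_union_of_disjoint]
  · congr 1
    ext x
    simp only [Finset.mem_union, mem_NC, mem_Nb]
    cases c x <;> simp
  · rw [Finset.disjoint_left]
    intro x hx hy
    rw [mem_NC] at hx hy
    rw [hx.2] at hy
    exact absurd hy.2 (by decide)

/-- (b): at a nice vertex the two colour classes of the neighbourhood are `m`-cliques. -/
theorem NC_clique (h : MinCE G m) {c : V → Bool} {v : V} (hn : Nice G m v) (hc : St G m c v)
    (b : Bool) : G.IsNClique m (NC G c b v) := by
  classical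
  obtain ⟨L, hL, hLc⟩ := exists_clique_NC h hc b
  obtain ⟨L', hL', hLc'⟩ := exists_clique_NC h hc (!b)
  have h1 := Finset.card_le_card hL
  have h2 := Finset.card_le_card hL'
  rw [hLc.2] at h1
  rw [hLc'.2] at h2
  have h3 := card_NC_add (G := G) c v
  have h4 : (Nb G v).card ≤ 2 * m := hn
  have h5 : (NC G c b v).card = m := by cases b <;> simp_all <;> omega
  have h6 : L = NC G c b v := Finset.eq_of_subset_of_card_le hL (by rw [h5, hLc.2])
  rw [← h6]; exact hLc

/-- Move. -/
theorem St_move [DecidableEq V] (h : MinCE G m) {c : V → Bool} {z y : V} (hn : Nice G m z)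
    (hc : St G m c z) (hzy : G.Adj z y) : St G m (Function.update c z (c y)) y := by
  intro K hK b hb
  by_contra hy
  by_cases hz : z ∈ K
  · have hbb : c y = b := by simpa using hb z hz
    have hsub : K.erase z ⊆ (NC G c b z).erase y := by
      intro x hx
      rw [Finset.mem_erase] at hx
      rw [Finset.mem_erase, mem_NC]
      refine ⟨fun e => hy (e ▸ hx.2), hK.1 hz hx.2 (Ne.symm hx.1), ?_⟩
      have h2 := hb x hx.2
      rwa [Function.update_of_ne hx.1] at h2
    have h1 := Finset.card_le_card hsub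
    rw [Finset.card_erase_of_mem hz, hK.2, Finset.card_erase_of_mem (mem_NC.2 ⟨hzy, hbb⟩),
      (NC_clique h hn hc b).2] at h1
    have := h.one
    omega
  · refine hz (hc K hK b ?_)
    intro x hx
    have h2 := hb x hx
    have hxz : x ≠ z := fun e => hz (e ▸ hx)
    rwa [Function.update_of_ne hxz] at h2

end basics

end Pool.Agent.H92.TD
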