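import Mathlib
import Pool.Agent.H92.TD.Defs

/-!
Row TD_Conn.
`connected_of`: a minimal counterexample is preconnected.  Suppose u, v are not reachable from each other.  Let c1 be a colouring with St c1 u
(`h.min u`), c2 a colouring with St c2 v.  W := {x | G.Reachable u x}; u ∈ W, v ∉ W.  c x := if x ∈ W then c2 x else c1 x.
By `h.bad c` there is a monochromatic (m+1)-clique K, nonempty (m+1 ≥ 1).  Its members are pairwise equal or adjacent, so K ⊆ W or K ∩ W = ∅.
If K ⊆ W: c = c2 on K, so v ∈ K ⊆ W (St c2 v), contradiction.  If K ∩ W = ∅: c = c1 on K, u ∈ K, u ∈ W, contradiction.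
`exists_layer`: distance to the set K.  For instance d y := sInf {n | ∃ k ∈ K, G.dist y k = n} (nonempty set since K nonempty; `Nat.sInf_mem`).
 d y = 0 ↔ y ∈ K: dist y k = 0 iff y = k for reachable.  d x ≤ d y + 1 if x ~ y: dist x k ≤ dist y k + 1 (triangle or walk cons).
 d y ≠ 0: take k with dist y k = d y, a walk of this length is  cons (y ~ x) w  with w of length d y - 1 so d x ≤ d y - 1, and d y ≤ d x + 1.
-/

set_option autoImplicit false
set_option linter.unusedSectionVars false
set_option linter.unusedVariables false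

namespace Pool.Agent.H92.TD

open SimpleGraph Finset

variable {V : Type} [Fintype V] {G : SimpleGraph V} {m : ℕ}

theorem connected_of (h : MinCE G m) : G.Preconnected := by
  classical
  intro u v
  by_contra huv
  obtain ⟨c1, hc1⟩ := h.min u
  obtain ⟨c2, hc2⟩ := h.min v
  obtain ⟨b, K, hK, hb⟩ := h.bad (fun x => if G.Reachable u x then c2 x else c1 x)
  have hone : ∀ x ∈ K, ∀ y ∈ K, G.Reachable x y := by
    intro x hx y hy
    by_cases hxy : x = y
    · subst hxy
      exact SimpleGraph.Reachable.refl x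
    · exact (hK.1 hx hy hxy).reachable
  obtain ⟨x0, hx0⟩ : K.Nonempty := by
    rw [← Finset.card_pos, hK.2]
    omega
  by_cases hx : G.Reachable u x0
  · have hall : ∀ x ∈ K, G.Reachable u x := fun x hxK => hx.trans (hone x0 hx0 x hxK)
    have hv : v ∈ K := hc2 K hK b fun x hxK => by
      have h1 := hb x hxK
      rwa [if_pos (hall x hxK)] at h1
    exact huv (hall v hv)
  · have hall : ∀ x ∈ K, ¬ G.Reachable u x := fun x hxK hux => hx (hux.trans (hone x hxK x0 hx0))
    have hu : u ∈ K := hc1 K hK b fun x hxK => by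
      have h1 := hb x hxK
      rwa [if_neg (hall x hxK)] at h1
    exact hall u hu (SimpleGraph.Reachable.refl u)

theorem exists_layer (hconn : G.Preconnected) (K : Finset V) (hK : K.Nonempty) :
    ∃ d : V → ℕ, (∀ y, d y = 0 ↔ y ∈ K) ∧ (∀ x y, G.Adj x y → d x ≤ d y + 1) ∧
      (∀ y, d y ≠ 0 → ∃ x, G.Adj y x ∧ d x + 1 = d y) := by
  classical
  have hne : ∀ y, {n | ∃ k ∈ K, G.dist y k = n}.Nonempty := by
    intro y
    obtain ⟨k, hk⟩ := hK
    exact ⟨G.dist y k, k, hk, rfl⟩
  have hmem : ∀ y, ∃ k ∈ K, G.dist y k = sInf {n | ∃ k ∈ K, G.dist y k = n} := fun y => Nat.sInf_mem (hne y)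
  have hle : ∀ y, ∀ k ∈ K, sInf {n | ∃ k ∈ K, G.dist y k = n} ≤ G.dist y k := fun y k hk =>
    Nat.sInf_le ⟨k, hk, rfl⟩
  have hlip : ∀ x y, G.Adj x y → sInf {n | ∃ k ∈ K, G.dist x k = n} ≤
      sInf {n | ∃ k ∈ K, G.dist y k = n} + 1 := by
    intro x y hxy
    obtain ⟨k, hk, hkd⟩ := hmem y
    refine (hle x k hk).trans ?_
    rw [← hkd]
    obtain ⟨w, hw⟩ := (hconn y k).exists_walk_length_eq_dist
    rw [← hw]
    have h1 := SimpleGraph.dist_le (SimpleGraph.Walk.cons hxy w)
    rwa [SimpleGraph.Walk.length_cons] at h1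
  refine ⟨fun y => sInf {n | ∃ k ∈ K, G.dist y k = n}, fun y => ⟨fun h0 => ?_, fun hy => ?_⟩, hlip,
    fun y hy => ?_⟩
  · obtain ⟨k, hk, hkd⟩ := hmem y
    have h1 : G.dist y k = 0 := hkd.trans h0
    rw [(hconn y k).dist_eq_zero_iff] at h1
    rw [h1]
    exact hk
  · have h1 := hle y y hy
    rw [SimpleGraph.dist_self] at h1
    exact Nat.le_zero.1 h1
  · obtain ⟨k, hk, hkd⟩ := hmem y
    obtain ⟨w, hw⟩ := (hconn y k).exists_walk_length_eq_dist
    rw [hkd] at hw
    cases w with
    | nil =>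
      exact absurd hw.symm hy
    | cons hyx w' =>
      rename_i x
      refine ⟨x, hyx, ?_⟩
      rw [SimpleGraph.Walk.length_cons] at hw
      have h1 := hle x k hk
      have h2 := SimpleGraph.dist_le w'
      have h3 := hlip y x hyx
      simp only at h3 ⊢
      omega

end Pool.Agent.H92.TD
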