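import Mathlib
import Pool.Agent.H92.TD.Defs

/-!
Row TD_Claw.  A minimal counterexample without induced claw + K_1 is claw-free.
PROOF.  Let v ~ z1, z2, z3 be pairwise nonadjacent, distinct.  By `exists_remote` there is an (m+1)-clique K
with `Rem G K v` (v not in K, v nonadjacent to all of K).  z_i is not in K (v ~ z_i, v is anticomplete to K).
X_i := members of K not adjacent to z_i; X_i is nonempty by `not_complete`.
NESTED: for i ≠ j, X_i ⊆ X_j or X_j ⊆ X_i: otherwise x ∈ X_i \ X_j, x' ∈ X_j \ X_i; then x ≠ x', x ~ x' (clique),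
z_j ~ x, z_i ~ x', z_i ≁ x, z_j ≁ x' and `h.c5` applied to  v, z_i, x', x, z_j  gives a contradiction
(v~z_i, z_i~x', x'~x, x~z_j, z_j~v; non-edges v≁x', z_i≁x, x'≁z_j, x≁v, z_j≁z_i).
So the three sets form a chain; the smallest one contains some k, and k lies in all three.  Then
`hk v z1 z2 z3 k` (k ≠ v because v ∉ K) is a contradiction.
(Good form: a helper lemma: for every i ≠ j: (∀ k∈K, ¬ z_i~k → ¬ z_j~k) ∨ (∀ k∈K, ¬ z_j~k → ¬ z_i~k); then case analysis.)
-/

set_option autoImplicit false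
set_option linter.unusedSectionVars false
set_option linter.unusedVariables false

namespace Pool.Agent.H92.TD

open SimpleGraph Finset

variable {V : Type} [Fintype V] {G : SimpleGraph V} {m : ℕ}

theorem claw_nested (h : MinCE G m) {K : Finset V} (hK : G.IsNClique (m + 1) K) {v : V}
    (hR : Rem G K v) {x y : V} (hx : G.Adj v x) (hy : G.Adj v y) (hxy : ¬ G.Adj x y) :
    (∀ k ∈ K, ¬ G.Adj x k → ¬ G.Adj y k) ∨ (∀ k ∈ K, ¬ G.Adj y k → ¬ G.Adj x k) := by
  by_contra hcon
  push Not at hcon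
  obtain ⟨⟨k1, hk1, n1, a1⟩, ⟨k2, hk2, n2, a2⟩⟩ := hcon
  have hne : k2 ≠ k1 := by
    rintro rfl
    exact n1 a2
  exact h.c5 v x k2 k1 y hx a2 (hK.1 hk2 hk1 hne) a1.symm hy.symm (hR.2 k2 hk2) n1
    (fun e => n2 e.symm) (fun e => hR.2 k1 hk1 e.symm) (fun e => hxy e.symm)

theorem clawfree_of (h : MinCE G m) (hk : ClawK1free G) : Clawfree G := by
  intro v a b c hva hvb hvc hab hbc hac nab nbc nac
  obtain ⟨K, hK, hR⟩ := exists_remote h v
  have hout : ∀ z, G.Adj v z → z ∉ K := fun z hz hzK => hR.2 z hzK hz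
  obtain ⟨ka, hka, na⟩ := not_complete h.free hK (hout a hva)
  obtain ⟨kb, hkb, nb⟩ := not_complete h.free hK (hout b hvb)
  obtain ⟨kc, hkc, nc⟩ := not_complete h.free hK (hout c hvc)
  have fin : ∀ k ∈ K, ¬ G.Adj a k → ¬ G.Adj b k → ¬ G.Adj c k → False := by
    intro k hkK h1 h2 h3
    refine hk v a b c k hva hvb hvc hab hbc hac nab nbc nac ?_ (fun e => hR.2 k hkK e.symm)
      (fun e => h1 e.symm) (fun e => h2 e.symm) (fun e => h3 e.symm)
    rintro rfl
    exact hR.1 hkK
  rcases claw_nested h hK hR hva hvb nab with h1 | h1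
  · rcases claw_nested h hK hR hvb hvc nbc with h2 | h2
    · exact fin ka hka na (h1 ka hka na) (h2 ka hka (h1 ka hka na))
    · rcases claw_nested h hK hR hva hvc nac with h3 | h3
      · exact fin ka hka na (h1 ka hka na) (h3 ka hka na)
      · exact fin kc hkc (h3 kc hkc nc) (h2 kc hkc nc) nc
  · rcases claw_nested h hK hR hvb hvc nbc with h2 | h2
    · exact fin kb hkb (h1 kb hkb nb) nb (h2 kb hkb nb)
    · exact fin kc hkc (h1 kc hkc (h2 kc hkc nc)) (h2 kc hkc nc) nc

end Pool.Agent.H92.TD
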