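import Mathlib
import Pool.Agent.H92.TD.Defs
import Pool.Agent.H92.TD.Claw

/-!
A minimal counterexample without induced claw + K_2 is claw-free.
-/

set_option autoImplicit false
set_option linter.unusedSectionVars false
set_option linter.unusedVariables false

namespace Pool.Agent.H92.TD

open SimpleGraph Finset

/-- No induced claw plus disjoint edge. -/
def ClawK2free {V : Type} (G : SimpleGraph V) : Prop :=
  ∀ v a b c k l : V, G.Adj v a → G.Adj v b → G.Adj v c → a ≠ b → b ≠ c → a ≠ c →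
    ¬ G.Adj a b → ¬ G.Adj b c → ¬ G.Adj a c → G.Adj k l →
    ¬ G.Adj k v → ¬ G.Adj k a → ¬ G.Adj k b → ¬ G.Adj k c →
    ¬ G.Adj l v → ¬ G.Adj l a → ¬ G.Adj l b → ¬ G.Adj l c → False

variable {V : Type} [Fintype V] {G : SimpleGraph V} {m : ℕ}

theorem clawfree_of2 (h : MinCE G m) (hk : ClawK2free G) : Clawfree G := by
  classical
  intro v a b c hva hvb hvc hab hbc hac nab nbc nac
  set Q : V → Prop := fun x => ¬ G.Adj x v ∧ ¬ G.Adj x a ∧ ¬ G.Adj x b ∧ ¬ G.Adj x c with hQ
  have hQs : ∀ x y, Q x → Q y → ¬ G.Adj x y := by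
    intro x y hx hy hxy
    exact hk v a b c x y hva hvb hvc hab hbc hac nab nbc nac hxy hx.1 hx.2.1 hx.2.2.1 hx.2.2.2
      hy.1 hy.2.1 hy.2.2.1 hy.2.2.2
  set S : V → Prop := fun x => Q x ∧ ∀ L : Finset V, G.IsNClique m L → (∀ l ∈ L, G.Adj v l) →
    ¬ ∀ l ∈ L, G.Adj x l with hS
  have h1 := h.one
  obtain ⟨b', K, hK, hb'⟩ := h.bad (fun x => decide (G.Adj v x ∨ S x))
  cases b' with
  | true =>
    have hb : ∀ x ∈ K, G.Adj v x ∨ S x := fun x hx => by simpa using hb' x hx
    by_cases hs : ∃ s ∈ K, S s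
    · obtain ⟨s, hsK, hSs⟩ := hs
      have hin : ∀ x ∈ K.erase s, G.Adj v x := by
        intro x hx
        rw [Finset.mem_erase] at hx
        rcases hb x hx.2 with h2 | h2
        · exact h2
        · exact absurd (hK.1 hx.2 hsK hx.1) (hQs x s h2.1 hSs.1)
      refine hSs.2 (K.erase s) ⟨hK.1.subset (by exact_mod_cast Finset.erase_subset _ _), ?_⟩ hin ?_
      · rw [Finset.card_erase_of_mem hsK, hK.2]; rfl
      · intro l hl
        rw [Finset.mem_erase] at hl
        exact hK.1 hsK hl.2 (Ne.symm hl.1)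
    · push Not at hs
      refine h.free _ (clique_insert hK (v := v) ?_)
      intro x hx
      rcases hb x hx with h2 | h2
      · exact h2
      · exact absurd h2 (hs x hx)
  | false =>
    have hb : ∀ x ∈ K, ¬ G.Adj v x ∧ ¬ S x := fun x hx => by
      have := hb' x hx
      simpa [not_or] using this
    have hvK : v ∉ K := by
      intro hv
      have hcard : 1 < K.card := by rw [hK.2]; omega
      obtain ⟨x, hx, hxv⟩ := Finset.exists_mem_ne hcard v
      exact (hb x hx).1 (hK.1 hv hx (Ne.symm hxv))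
    have hR : Rem G K v := ⟨hvK, fun k hk => (hb k hk).1⟩
    have hout : ∀ z, G.Adj v z → z ∉ K := fun z hz hzK => hR.2 z hzK hz
    -- the vertex among `a, b, c` with the largest set of neighbours in `K`
    have key : ∃ z, G.Adj v z ∧ ∀ k ∈ K, ¬ G.Adj z k → Q k := by
      have mk : ∀ k ∈ K, ¬ G.Adj a k → ¬ G.Adj b k → ¬ G.Adj c k → Q k := by
        intro k hkK h1 h2 h3
        exact ⟨fun e => hR.2 k hkK e.symm, fun e => h1 e.symm, fun e => h2 e.symm,
          fun e => h3 e.symm⟩
      rcases claw_nested h hK hR hva hvb nab with h1 | h1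
      · rcases claw_nested h hK hR hva hvc nac with h2 | h2
        · exact ⟨a, hva, fun k hk n => mk k hk n (h1 k hk n) (h2 k hk n)⟩
        · exact ⟨c, hvc, fun k hk n => mk k hk (h2 k hk n) (h1 k hk (h2 k hk n)) n⟩
      · rcases claw_nested h hK hR hvb hvc nbc with h2 | h2
        · exact ⟨b, hvb, fun k hk n => mk k hk (h1 k hk n) n (h2 k hk n)⟩
        · exact ⟨c, hvc, fun k hk n => mk k hk (h1 k hk (h2 k hk n)) (h2 k hk n) n⟩
    obtain ⟨z, hvz, hz⟩ := key
    obtain ⟨k, hkK, hzk⟩ := not_complete h.free hK (hout z hvz)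
    have huniq : ∀ k' ∈ K, ¬ G.Adj z k' → k' = k := by
      intro k' hk' hzk'
      by_contra hne
      exact hQs k' k (hz k' hk' hzk') (hz k hkK hzk) (hK.1 hk' hkK hne)
    have hnS : ¬ S k := (hb k hkK).2
    have hL : ∃ L : Finset V, G.IsNClique m L ∧ (∀ l ∈ L, G.Adj v l) ∧ ∀ l ∈ L, G.Adj k l := by
      by_contra hcon
      apply hnS
      refine ⟨hz k hkK hzk, ?_⟩
      intro L hL1 hL2 hL3
      exact hcon ⟨L, hL1, hL2, hL3⟩
    obtain ⟨L, hL1, hL2, hL3⟩ := hL
    have hzL : ∀ l ∈ L, G.Adj z l := by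
      intro l hl
      by_contra hzl
      obtain ⟨k', hk', hlk'⟩ := not_complete h.free hK (hout l (hL2 l hl))
      rcases claw_nested h hK hR hvz (hL2 l hl) hzl with h3 | h3
      · exact h3 k hkK hzk (hL3 l hl).symm
      · have := huniq k' hk' (h3 k' hk' hlk')
        subst this
        exact hlk' (hL3 l hl).symm
    have hzc : G.IsNClique (m + 1) (insert z L) := clique_insert hL1 hzL
    refine h.free _ (clique_insert hzc (v := v) ?_)
    intro x hx
    rw [Finset.mem_insert] at hx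
    rcases hx with rfl | hx
    · exact hvz
    · exact hL2 x hx

end Pool.Agent.H92.TD
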