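import Mathlib
import Pool.Agent.H92.TD.Defs

/-!
Row TD_Conv.  Translations between embeddings and the pointwise definitions.
`C5free_of`: given a b c d e as in `C5free`, the map ![a, b, c, d, e] : Fin 5 → V is an embedding cycleGraph 5 ↪g G (injective: see below; `cycleGraph_adj'` / decide on Fin 5), contradiction with ho 2.
 Distinctness: neighbours are distinct (`G.ne_of_adj`); a ≠ c since c ~ d and a ≁ d; a ≠ d since a ~ b.. d ≁ b; b ≠ d since d ~ e, e ≁ b; b ≠ e since.. e ~ d, b ≁ d; c ≠ e since e ~ a, a ≁ c.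
`ClawK1free_of`: the map (completeBipartiteGraph (Fin 1) (Fin 3)) ⊕g ⊥ → V:  inl (inl _) ↦ v, inl (inr i) ↦ ![a,b,c] i, inr _ ↦ k.
`oddHoleFree_induce`, `clawK1free_induce`: pass to induced subgraphs (compose with `SimpleGraph.Embedding.induce s`; the second one is pointwise: G.induce s adjacency is comap).
-/

set_option autoImplicit false
set_option linter.unusedSectionVars false
set_option linter.unusedVariables false

namespace Pool.Agent.H92.TD

open SimpleGraph Finset

variable {V : Type} [Fintype V] {G : SimpleGraph V} {m : ℕ}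

theorem C5free_of (ho : OddHoleFree G) : C5free G := by
  intro a b c d e hab hbc hcd hde hea nac nbd nce nda neb
  have hf : Function.Injective (![a, b, c, d, e] : Fin 5 → V) := by
    have e1 : a ≠ b := G.ne_of_adj hab
    have e2 : b ≠ c := G.ne_of_adj hbc
    have e3 : c ≠ d := G.ne_of_adj hcd
    have e4 : d ≠ e := G.ne_of_adj hde
    have e5 : e ≠ a := G.ne_of_adj hea
    have e6 : a ≠ c := fun h => nda (by rw [h]; exact hcd.symm)
    have e7 : a ≠ d := fun h => nbd (by rw [← h]; exact hab.symm)
    have e8 : b ≠ d := fun h => neb (by rw [h]; exact hde.symm)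
    have e9 : b ≠ e := fun h => nbd (by rw [h]; exact hde.symm)
    have e10 : c ≠ e := fun h => nac (by rw [h]; exact hea.symm)
    intro i j hij
    fin_cases i <;> fin_cases j <;> simp_all
  refine (ho 2 (le_refl 2)).false ⟨⟨(![a, b, c, d, e] : Fin 5 → V), hf⟩, ?_⟩
  intro i j
  have nca : ¬ G.Adj c a := fun h => nac h.symm
  have ndb : ¬ G.Adj d b := fun h => nbd h.symm
  have nec : ¬ G.Adj e c := fun h => nce h.symm
  have nad : ¬ G.Adj a d := fun h => nda h.symm
  have nbe : ¬ G.Adj b e := fun h => neb h.symm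
  have hba := hab.symm
  have hcb := hbc.symm
  have hdc := hcd.symm
  have hed := hde.symm
  have hae := hea.symm
  fin_cases i <;> fin_cases j <;>
    simp [SimpleGraph.cycleGraph_adj, hab, hbc, hcd, hde, hea, nac, nbd, nce, nda, neb, nca, ndb, nec, nad, nbe,
      hba, hcb, hdc, hed, hae] <;> decide

theorem ClawK1free_of
    (h : IsEmpty ((completeBipartiteGraph (Fin 1) (Fin 3) ⊕g (⊥ : SimpleGraph (Fin 1))) ↪g G)) :
    ClawK1free G := by
  intro v a b c k hva hvb hvc hab hbc hac nab nbc nac hkv nkv nka nkb nkc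
  have hka : k ≠ a := fun h => nkv (by rw [h]; exact hva.symm)
  have hkb : k ≠ b := fun h => nkv (by rw [h]; exact hvb.symm)
  have hkc : k ≠ c := fun h => nkv (by rw [h]; exact hvc.symm)
  have e1 : v ≠ a := G.ne_of_adj hva
  have e2 : v ≠ b := G.ne_of_adj hvb
  have e3 : v ≠ c := G.ne_of_adj hvc
  let f : (Fin 1 ⊕ Fin 3) ⊕ Fin 1 → V :=
    Sum.elim (Sum.elim (fun _ => v) (![a, b, c])) (fun _ => k)
  have hf : Function.Injective f := by
    intro x y hxy
    rcases x with (x | x) | x <;> rcases y with (y | y) | y <;> fin_cases x <;> fin_cases y <;>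
      simp_all [f]
  refine h.false ⟨⟨f, hf⟩, ?_⟩
  intro x y
  have nba : ¬ G.Adj b a := fun h => nab h.symm
  have ncb : ¬ G.Adj c b := fun h => nbc h.symm
  have nca : ¬ G.Adj c a := fun h => nac h.symm
  have nvk : ¬ G.Adj v k := fun h => nkv h.symm
  have nak : ¬ G.Adj a k := fun h => nka h.symm
  have nbk : ¬ G.Adj b k := fun h => nkb h.symm
  have nck : ¬ G.Adj c k := fun h => nkc h.symm
  have hav := hva.symm
  have hbv := hvb.symm
  have hcv := hvc.symm
  rcases x with (x | x) | x <;> rcases y with (y | y) | y <;> fin_cases x <;> fin_cases y <;>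
    simp [f, hva, hvb, hvc, nab, nbc, nac, nkv, nka, nkb, nkc, nba, ncb, nca, nvk, nak, nbk, nck, hav, hbv, hcv]

theorem oddHoleFree_induce (s : Set V) (ho : OddHoleFree G) : OddHoleFree (G.induce s) := by
  intro k hk
  refine ⟨fun f => (ho k hk).false ?_⟩
  exact (SimpleGraph.Embedding.induce s).comp f

theorem clawK1free_induce (s : Set V) (hk : ClawK1free G) : ClawK1free (G.induce s) := by
  intro v a b c k hva hvb hvc hab hbc hac nab nbc nac hkv nkv nka nkb nkc
  exact hk v a b c k hva hvb hvc (fun h => hab (Subtype.ext h)) (fun h => hbc (Subtype.ext h))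
    (fun h => hac (Subtype.ext h)) nab nbc nac (fun h => hkv (Subtype.ext h)) nkv nka nkb nkc

/-- The easy direction on one graph: an odd cycle of length at least 5 in which no two parts without edge cover. -/
theorem cycle_not_two_col {k : ℕ} (hk : 2 ≤ k) (c : Fin (2 * k + 1) → Bool) :
    ∃ x y, (SimpleGraph.cycleGraph (2 * k + 1)).Adj x y ∧ c x = c y := by
  by_contra hc
  push Not at hc
  have h1 : (SimpleGraph.cycleGraph (2 * k + 1)).Colorable 2 := by
    have h2 : (SimpleGraph.cycleGraph (2 * k + 1)).Coloring Bool :=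
      SimpleGraph.Coloring.mk c (fun {x y} hxy => hc x y hxy)
    have h3 := h2.colorable
    simpa using h3
  have h2 := SimpleGraph.chromaticNumber_cycleGraph_of_odd (2 * k + 1) (by omega) ⟨k, rfl⟩
  have h3 := h1.chromaticNumber_le
  rw [h2] at h3
  norm_num at h3

end Pool.Agent.H92.TD
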