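import Mathlib
import Pool.Agent.H92.TD.Defs

/-!
Row TD_Cycle.  A triangle-free graph without odd hole is 2-colourable.
PROOF.  `SimpleGraph.two_colorable_iff_forall_loop_even` (Mathlib.Combinatorics.SimpleGraph.Coloring.Constructions): suppose some closed walk has odd length; let n be the least odd
length of a closed walk (Nat.find), w : G.Walk u u of length n.  f i := w.getVert i.  f 0 = f n = u, f i ~ f (i+1) for i < n.  Sub-walks: for i ≤ j ≤ n there is a walk from f i to f j of
length j - i (e.g. take/drop or by induction on j from adjacency), and one from f j to f i of length n - (j - i) (f j → f n = f 0 → f i).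
(1) f i ≠ f j for i < j < n: otherwise closed walks of lengths j - i and n - (j - i), both in [1, n-1], one of them odd: contradiction.
(2) if f i ~ f j with i < j < n then j = i + 1 or (i = 0 and j = n - 1): otherwise 2 ≤ j - i ≤ n - 2, closed walks of lengths (j - i) + 1 and n - (j - i) + 1, both < n, one of them odd.
n = 1 is impossible (a loop), n = 3: f 0, f 1, f 2 is a triangle: contradiction with CliqueFree 3.  So n = 2k+1 with k ≥ 2, and i ↦ f i is an embedding
cycleGraph (2k+1) ↪g G (use `SimpleGraph.cycleGraph_adj'` : adjacency in cycleGraph n iff (u - v).val = 1 ∨ (v - u).val = 1; rewrite (u - v).val by `Fin.sub_val_of_le`, `Fin.coe_sub_iff_lt` etc.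
or `Fin.val_sub`/`Fin.coe_sub` + omega).  Contradiction with `ho k`.
The colouring: from `G.Colorable 2` get C : G.Coloring (Fin 2), c x := decide (C x = 0).
-/

set_option autoImplicit false
set_option linter.unusedSectionVars false
set_option linter.unusedVariables false

namespace Pool.Agent.H92.TD

open SimpleGraph Finset

variable {V : Type} [Fintype V] {G : SimpleGraph V} {m : ℕ}

private theorem cycle_fwd {f : ℕ → V} {n : ℕ} (hf : ∀ i, i < n → G.Adj (f i) (f (i + 1))) {i : ℕ} :
    ∀ {j : ℕ}, i ≤ j → j ≤ n → ∃ w : G.Walk (f i) (f j), w.length = j - i := by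
  intro j
  induction j with
  | zero =>
    intro h _
    obtain rfl : i = 0 := by omega
    exact ⟨Walk.nil, by simp⟩
  | succ j ih =>
    intro h hn
    rcases Nat.lt_or_ge i (j + 1) with h1 | h1
    · obtain ⟨w, hw⟩ := ih (by omega) (by omega)
      refine ⟨w.concat (hf j (by omega)), ?_⟩
      rw [Walk.length_concat, hw]
      omega
    · obtain rfl : i = j + 1 := by omega
      exact ⟨Walk.nil, by simp⟩

private theorem cycle_sub_val {N : ℕ} (a b : Fin N) :
    (a - b).val = if b.val ≤ a.val then a.val - b.val else N - b.val + a.val := by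
  have ha := a.isLt
  have hb := b.isLt
  rw [Fin.val_sub]
  split_ifs with h
  · have e : N - b.val + a.val = (a.val - b.val) + N := by omega
    rw [e, Nat.add_mod_right, Nat.mod_eq_of_lt (by omega)]
  · rw [Nat.mod_eq_of_lt (by omega)]

private theorem cycle_emb {f : ℕ → V} {k : ℕ} (hk : 2 ≤ k)
    (hf : ∀ i, i < 2 * k + 1 → G.Adj (f i) (f (i + 1))) (hfn : f (2 * k + 1) = f 0)
    (hinj : ∀ i j, i < j → j < 2 * k + 1 → f i ≠ f j)
    (hadj : ∀ i j, i < j → j < 2 * k + 1 → G.Adj (f i) (f j) → j = i + 1 ∨ (i = 0 ∧ j = 2 * k)) :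
    Nonempty (SimpleGraph.cycleGraph (2 * k + 1) ↪g G) := by
  have hinj' : Function.Injective (fun i : Fin (2 * k + 1) => f i.val) := by
    intro a b hab
    rcases Nat.lt_trichotomy a.val b.val with h | h | h
    · exact absurd hab (hinj _ _ h b.isLt)
    · exact Fin.ext h
    · exact absurd hab.symm (hinj _ _ h a.isLt)
  have hlast : G.Adj (f (2 * k)) (f 0) := by
    have h := hf (2 * k) (by omega)
    rwa [hfn] at h
  refine ⟨⟨⟨fun i => f i.val, hinj'⟩, ?_⟩⟩
  intro a b
  change G.Adj (f a.val) (f b.val) ↔ _
  have ha := a.isLt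
  have hb := b.isLt
  rw [SimpleGraph.cycleGraph_adj', cycle_sub_val, cycle_sub_val]
  constructor
  · intro h
    rcases Nat.lt_trichotomy a.val b.val with h1 | h1 | h1
    · rcases hadj _ _ h1 hb h with h2 | ⟨h2, h3⟩
      · right
        rw [if_pos h1.le]
        omega
      · left
        rw [if_neg (by omega)]
        omega
    · rw [h1] at h
      exact absurd h (G.loopless.irrefl _)
    · rcases hadj _ _ h1 ha h.symm with h2 | ⟨h2, h3⟩
      · left
        rw [if_pos h1.le]
        omega
      · right
        rw [if_neg (by omega)]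
        omega
  · intro h
    have key : ∀ x y : ℕ, x < 2 * k + 1 → y < 2 * k + 1 →
        (if y ≤ x then x - y else 2 * k + 1 - y + x) = 1 → G.Adj (f x) (f y) := by
      intro x y hx hy h1
      split_ifs at h1 with h2
      · have e : x = y + 1 := by omega
        rw [e]
        exact (hf y hy).symm
      · have e1 : y = 2 * k := by omega
        have e2 : x = 0 := by omega
        rw [e1, e2]
        exact hlast.symm
    rcases h with h | h
    · exact key _ _ ha hb h
    · exact (key _ _ hb ha h).symm

theorem two_col (hf : G.CliqueFree 3) (ho : OddHoleFree G) :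
    ∃ c : V → Bool, ∀ x y, G.Adj x y → c x ≠ c y := by
  classical
  have h2 : G.Colorable 2 := by
    rw [SimpleGraph.two_colorable_iff_forall_loop_even]
    by_contra hc
    push Not at hc
    obtain ⟨u₀, w₀, hw₀⟩ := hc
    have hex : ∃ n, Odd n ∧ ∃ u : V, ∃ w : G.Walk u u, w.length = n :=
      ⟨w₀.length, Nat.not_even_iff_odd.1 hw₀, u₀, w₀, rfl⟩
    obtain ⟨n, hn⟩ : ∃ n, n = Nat.find hex := ⟨_, rfl⟩
    have hmin : ∀ m, m < n → Odd m → ∀ (v : V) (w : G.Walk v v), w.length ≠ m := by
      intro m hm hodd v w hw
      rw [hn] at hm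
      exact Nat.find_min hex hm ⟨hodd, v, w, hw⟩
    obtain ⟨hodd, u, w, hw⟩ := Nat.find_spec hex
    rw [← hn] at hodd hw
    obtain ⟨f, hfd⟩ : ∃ f : ℕ → V, f = fun i => w.getVert i := ⟨_, rfl⟩
    have hstep : ∀ i, i < n → G.Adj (f i) (f (i + 1)) := by
      intro i hi
      rw [hfd]
      exact w.adj_getVert_succ (by rw [hw]; exact hi)
    have h0 : f 0 = u := by
      rw [hfd]
      exact w.getVert_zero
    have hn0 : f n = u := by
      rw [hfd, ← hw]
      exact w.getVert_length
    have back : ∀ i j, i ≤ j → j ≤ n → ∃ w' : G.Walk (f j) (f i), w'.length = n - j + i := by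
      intro i j hij hjn
      obtain ⟨w1, hw1⟩ := cycle_fwd hstep hjn le_rfl
      obtain ⟨w2, hw2⟩ := cycle_fwd hstep (Nat.zero_le i) (hij.trans hjn)
      refine ⟨(w1.copy rfl hn0).append (w2.copy h0 rfl), ?_⟩
      rw [Walk.length_append, Walk.length_copy, Walk.length_copy, hw1, hw2]
      omega
    have hinj : ∀ i j, i < j → j < n → f i ≠ f j := by
      intro i j hij hjn he
      obtain ⟨w1, hw1⟩ := cycle_fwd hstep hij.le hjn.le
      obtain ⟨w2, hw2⟩ := back i j hij.le hjn.le
      rcases Nat.even_or_odd (j - i) with h | h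
      · have h3 : Odd (n - j + i) := by
          have e : n = (j - i) + (n - j + i) := by omega
          rw [e] at hodd
          exact (Nat.odd_add'.1 hodd).2 h
        refine hmin (n - j + i) (by omega) h3 _ (w2.copy rfl he) ?_
        rw [Walk.length_copy, hw2]
      · refine hmin (j - i) (by omega) h _ (w1.copy rfl he.symm) ?_
        rw [Walk.length_copy, hw1]
    have hadj : ∀ i j, i < j → j < n → G.Adj (f i) (f j) → j = i + 1 ∨ (i = 0 ∧ j + 1 = n) := by
      intro i j hij hjn ha
      by_contra hcon
      obtain ⟨w1, hw1⟩ := cycle_fwd hstep hij.le hjn.le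
      obtain ⟨w2, hw2⟩ := back i j hij.le hjn.le
      have hlt1 : j - i + 1 < n := by omega
      have hlt2 : n - j + i + 1 < n := by omega
      rcases Nat.even_or_odd (j - i + 1) with h | h
      · have h3 : Odd (n - j + i + 1) := by
          have e : n + 2 = (j - i + 1) + (n - j + i + 1) := by omega
          have h4 : Odd (n + 2) := hodd.add_even (by decide)
          rw [e] at h4
          exact (Nat.odd_add'.1 h4).2 h
        refine hmin _ hlt2 h3 _ (w2.concat ha) ?_
        rw [Walk.length_concat, hw2]
      · refine hmin _ hlt1 h _ (w1.concat ha.symm) ?_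
        rw [Walk.length_concat, hw1]
    obtain ⟨k, hk⟩ := hodd
    rcases Nat.lt_or_ge k 2 with hk2 | hk2
    · rcases Nat.lt_or_ge k 1 with hk1 | hk1
      · have h1 := hstep 0 (by omega)
        have e : 0 + 1 = n := by omega
        rw [e, h0, hn0] at h1
        exact G.loopless.irrefl _ h1
      · have e3 : n = 3 := by omega
        have a1 := hstep 0 (by omega)
        have a2 := hstep 1 (by omega)
        have a3 := hstep 2 (by omega)
        have e : 2 + 1 = n := by omega
        rw [e, hn0, ← h0] at a3
        exact hf {f 0, f 1, f 2} (SimpleGraph.is3Clique_triple_iff.2 ⟨a1, a3.symm, a2⟩)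
    · subst hk
      refine (cycle_emb hk2 hstep (hn0.trans h0.symm) hinj ?_).elim fun φ => (ho k hk2).false φ
      intro i j h3 h4 h5
      rcases hadj i j h3 h4 h5 with h | ⟨h, h'⟩
      · exact Or.inl h
      · exact Or.inr ⟨h, by omega⟩
  obtain ⟨C⟩ := h2
  refine ⟨fun x => decide (C x = 0), ?_⟩
  intro x y hxy he
  have hC := C.valid hxy
  have h1 : ∀ a b : Fin 2, decide (a = 0) = decide (b = 0) → a = b := by decide
  exact hC (h1 _ _ he)

end Pool.Agent.H92.TD
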