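import Mathlib
import Pool.Agent.H92.TD.Defs

/-!
Row TD_Step8a.  All vertices are nice (hn).  c with St c z.
`a8`: y ~ z, u ∈ N(y) \ N[z]  ⇒  c u ≠ c y.   PROOF: c' := update c z (c y), `St_move h (hn z) hc hzy : St c' y`; `NC_clique h (hn y) _ (c y)`: N(y) ∩ c'⁻¹(c y)
 is a clique; it contains z (c' z = c y).  If c u = c y then c' u = c u = c y (u ≠ z), u ∈ N(y), so u ~ z or u = z: contradiction.
`c8`: y, w ∈ N(z), c y ≠ c w ⇒ y ≁ w.   PROOF: suppose y ~ w.  c' as above (c' z = c y), b := c w ≠ c y.  L' := NC G c' b y is an m-clique (`NC_clique`), w ∈ L' (w ≠ z, c' w = b).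
 Every u ∈ L': u ≠ z (c' z = c y ≠ b), c u = b.  Claim u ~ z: otherwise u ≠ w (w ~ z), u ~ w (L' clique), u ∈ N(w) \ N[z], so by `a8` (with y := w) c u ≠ c w: contradiction.
 So L' ∪ {y, z} is an (m+2)-clique: contradiction with CliqueFree.
`nb_trans`: v ~ x, y, w; x ~ y, y ~ w, x ≠ w ⇒ x ~ w.   PROOF: c with St c v (`h.min v`); by `c8` c x = c y = c w (contrapositive); NC G c (c x) v is a clique (`NC_clique`) containing x, w.
`far_clique`: p ~ x: N(x) \ N[p] is an m-clique.  PROOF: c with St c x.  p ∈ N(x); the class of colour !(c p): NC G c (!(c p)) x is an m-clique.  u ∈ N(x) with c u ≠ c p: u ≠ p and u ≁ p by `c8`.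
 Conversely u ∈ N(x), u ≠ p, p ≁ u ⇒ c u ≠ c p (otherwise both in the clique NC G c (c p) x).
-/

set_option autoImplicit false
set_option linter.unusedSectionVars false
set_option linter.unusedVariables false

namespace Pool.Agent.H92.TD

open SimpleGraph Finset

variable {V : Type} [Fintype V] {G : SimpleGraph V} {m : ℕ}

theorem a8 (h : MinCE G m) (hn : ∀ v, Nice G m v) {c : V → Bool} {z : V} (hc : St G m c z) {y u : V}
    (hzy : G.Adj z y) (hyu : G.Adj y u) (huz : u ≠ z) (hzu : ¬ G.Adj z u) : c u ≠ c y := by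
  classical
  intro he
  have hst := St_move h (hn z) hc hzy
  have hcl := NC_clique h (hn y) hst (c y)
  have hz : z ∈ NC G (Function.update c z (c y)) (c y) y := by
    rw [mem_NC]; exact ⟨hzy.symm, by simp⟩
  have hu : u ∈ NC G (Function.update c z (c y)) (c y) y := by
    rw [mem_NC]; exact ⟨hyu, by rw [Function.update_of_ne huz, he]⟩
  exact hzu (hcl.1 hz hu (Ne.symm huz))

theorem c8 (h : MinCE G m) (hn : ∀ v, Nice G m v) {c : V → Bool} {z : V} (hc : St G m c z) {y w : V}
    (hzy : G.Adj z y) (hzw : G.Adj z w) (hcol : c y ≠ c w) : ¬ G.Adj y w := by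
  classical
  intro hyw
  have hst := St_move h (hn z) hc hzy
  have hcl := NC_clique h (hn y) hst (c w)
  have hwz : w ≠ z := hzw.ne'
  have hw : w ∈ NC G (Function.update c z (c y)) (c w) y := by
    rw [mem_NC]; exact ⟨hyw, by rw [Function.update_of_ne hwz]⟩
  have hall : ∀ u ∈ NC G (Function.update c z (c y)) (c w) y, G.Adj z u ∧ G.Adj y u := by
    intro u hu
    have hu' := hu
    rw [mem_NC] at hu'
    have huz : u ≠ z := by
      intro e
      rw [e] at hu'
      exact hcol (by simpa using hu'.2)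
    have hcu : c u = c w := by
      have := hu'.2
      rwa [Function.update_of_ne huz] at this
    refine ⟨?_, hu'.1⟩
    by_contra hzu
    have huw : w ≠ u := fun e => hzu (e ▸ hzw)
    have hwu : G.Adj w u := hcl.1 hw hu huw
    exact a8 h hn hc hzw hwu huz hzu hcu
  have h1 : G.IsNClique (m + 1) (insert y (NC G (Function.update c z (c y)) (c w) y)) :=
    clique_insert hcl (fun k hk => (hall k hk).2)
  have h2 : G.IsNClique (m + 1 + 1) (insert z (insert y (NC G (Function.update c z (c y)) (c w) y))) := by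
    refine clique_insert h1 ?_
    intro k hk
    rcases Finset.mem_insert.1 hk with hk | hk
    · rw [hk]; exact hzy
    · exact (hall k hk).1
  exact h.free _ h2

theorem nb_trans (h : MinCE G m) (hn : ∀ v, Nice G m v) {v x y w : V} (hx : G.Adj v x)
    (hy : G.Adj v y) (hw : G.Adj v w) (hxy : G.Adj x y) (hyw : G.Adj y w) (hxw : x ≠ w) :
    G.Adj x w := by
  obtain ⟨c, hc⟩ := h.min v
  have h1 : c x = c y := by
    by_contra hcol
    exact c8 h hn hc hx hy hcol hxy
  have h2 : c y = c w := by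
    by_contra hcol
    exact c8 h hn hc hy hw hcol hyw
  have hcl := NC_clique h (hn v) hc (c x)
  exact hcl.1 (Finset.mem_coe.2 (mem_NC.2 ⟨hx, rfl⟩)) (Finset.mem_coe.2 (mem_NC.2 ⟨hw, by rw [h1, h2]⟩)) hxw

theorem far_clique (h : MinCE G m) (hn : ∀ v, Nice G m v) {p x : V} (hpx : G.Adj p x) :
    ∃ F : Finset V, G.IsNClique m F ∧ ∀ u, u ∈ F ↔ (G.Adj x u ∧ u ≠ p ∧ ¬ G.Adj p u) := by
  obtain ⟨c, hc⟩ := h.min x
  refine ⟨NC G c (!(c p)) x, NC_clique h (hn x) hc _, ?_⟩
  intro u
  rw [mem_NC]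
  constructor
  · rintro ⟨hxu, hcu⟩
    have hne : c p ≠ c u := by
      rw [hcu]
      cases c p <;> decide
    exact ⟨hxu, fun e => hne (by rw [e]), c8 h hn hc hpx.symm hxu hne⟩
  · rintro ⟨hxu, hup, hpu⟩
    refine ⟨hxu, ?_⟩
    by_contra hcu
    have he : c u = c p := by
      revert hcu
      cases c u <;> cases c p <;> decide
    have hcl := NC_clique h (hn x) hc (c p)
    exact hpu (hcl.1 (Finset.mem_coe.2 (mem_NC.2 ⟨hpx.symm, rfl⟩))
      (Finset.mem_coe.2 (mem_NC.2 ⟨hxu, he⟩)) (Ne.symm hup))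

end Pool.Agent.H92.TD
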