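import Mathlib
import Pool.Agent.H92.TD.Defs
import Pool.Agent.H92.TD.Step8a

/-!
Row TD_Reach.  d is the distance function from z (abstract properties hd0, hd1, hd2).
`reach8`: induction on n = d p (for all p).  n = 0: p = z, c' := c.   n + 1: by hd2 p' with p ~ p', d p' = n; IH: c1 with St c1 p' and c1 v = c v for v ≠ p', d p' ≤ d v.
  c' := update c1 p' (c1 p); `St_move h (hn p') (St c1 p') (p' ~ p)` : St c' p.  For v ≠ p with d p ≤ d v: v ≠ p' (d p' < d p), c' v = c1 v = c v.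
`st8`: p ~ x, d p + 1 = d x, u ∈ N(x) \ N[p]: c u ≠ c x.  Take c' from `reach8` at p.  `a8` (z := p, y := x) : c' u ≠ c' x.  c' x = c x (x ≠ p, d p ≤ d x).  d x ≤ d u + 1 (hd1),
  so d p ≤ d u, u ≠ p: c' u = c u.
-/

set_option autoImplicit false
set_option linter.unusedSectionVars false
set_option linter.unusedVariables false

namespace Pool.Agent.H92.TD

open SimpleGraph Finset

variable {V : Type} [Fintype V] {G : SimpleGraph V} {m : ℕ}

theorem reach8 (h : MinCE G m) (hn : ∀ v, Nice G m v) {c : V → Bool} {z : V} (hc : St G m c z)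
    {d : V → ℕ} (hd0 : ∀ y, d y = 0 ↔ y = z) (hd1 : ∀ x y, G.Adj x y → d x ≤ d y + 1)
    (hd2 : ∀ y, d y ≠ 0 → ∃ x, G.Adj y x ∧ d x + 1 = d y) (p : V) :
    ∃ c' : V → Bool, St G m c' p ∧ ∀ v, v ≠ p → d p ≤ d v → c' v = c v := by
  classical
  have key : ∀ n : ℕ, ∀ p : V, d p = n →
      ∃ c' : V → Bool, St G m c' p ∧ ∀ v, v ≠ p → d p ≤ d v → c' v = c v := by
    intro n
    induction n with
    | zero =>
      intro p hp
      have hpz : p = z := (hd0 p).1 hp
      subst hpz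
      exact ⟨c, hc, fun v _ _ => rfl⟩
    | succ n ih =>
      intro p hp
      obtain ⟨p', hpp', hdp⟩ := hd2 p (by omega)
      obtain ⟨c1, hc1, hv1⟩ := ih p' (by omega)
      refine ⟨Function.update c1 p' (c1 p), St_move h (hn p') hc1 hpp'.symm, ?_⟩
      intro v hvp hdv
      have hvp' : v ≠ p' := by
        intro e
        subst e
        omega
      rw [Function.update_of_ne hvp']
      exact hv1 v hvp' (by omega)
  exact key (d p) p rfl

theorem st8 (h : MinCE G m) (hn : ∀ v, Nice G m v) {c : V → Bool} {z : V} (hc : St G m c z)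
    {d : V → ℕ} (hd0 : ∀ y, d y = 0 ↔ y = z) (hd1 : ∀ x y, G.Adj x y → d x ≤ d y + 1)
    (hd2 : ∀ y, d y ≠ 0 → ∃ x, G.Adj y x ∧ d x + 1 = d y) {p x u : V} (hpx : G.Adj p x)
    (hdx : d p + 1 = d x) (hxu : G.Adj x u) (hup : u ≠ p) (hpu : ¬ G.Adj p u) : c u ≠ c x := by
  obtain ⟨c', hc', hv⟩ := reach8 h hn hc hd0 hd1 hd2 p
  have h1 := hd1 x u hxu
  have h2 : c' x = c x := hv x (by intro e; subst e; omega) (by omega)
  have h3 : c' u = c u := hv u hup (by omega)
  have h4 := a8 h hn hc' hpx hxu hup hpu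
  rw [h2, h3] at h4
  exact h4

end Pool.Agent.H92.TD
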