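import Mathlib
import Pool.Agent.H92.TD.Defs

/-!
Row TD_G4.
`nb_diff`: claw-free: two neighbours a ≠ b of y, both different from and nonadjacent to a neighbour z of y, are adjacent
(otherwise claw at y with z, a, b).
`D1_nb_adj` (G4).  K an (m+1)-clique, y in Rem, z ≠ z' two neighbours of y in D1.  Then z ~ z'.
PROOF.  Suppose z ≁ z'.  P(z) := neighbours of z in K, nonempty; the same for z'.  y has no neighbour in K.
NESTED: if p ∈ P(z) \ P(z') and p' ∈ P(z') \ P(z) then p ≠ p', p ~ p' and  y, z, p, p', z'  is an induced C5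
(y~z, z~p, p~p', p'~z', z'~y; y≁p, z≁p', p≁z', p'≁y, z'≁z), contradiction with `h.c5`.
So (by symmetry) P(z') ⊆ P(z).  Take p ∈ P(z') ⊆ P(z), and k ∈ K with z ≁ k (`not_complete`), hence z' ≁ k.
Then k ≠ p and p ~ z, z', k with z ≁ z', z ≁ k, z' ≁ k, all distinct (z, z' ∉ K): an induced claw at p.
(State the WLOG as a helper lemma with hypothesis ∀ p∈K, z'~p → z~p.)
-/

set_option autoImplicit false
set_option linter.unusedSectionVars false
set_option linter.unusedVariables false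

namespace Pool.Agent.H92.TD

open SimpleGraph Finset

variable {V : Type} [Fintype V] {G : SimpleGraph V} {m : ℕ}

theorem nb_diff (hcl : Clawfree G) {y z a b : V} (hyz : G.Adj y z) (ha : G.Adj y a) (hb : G.Adj y b)
    (haz : a ≠ z) (hbz : b ≠ z) (hab : a ≠ b) (hna : ¬ G.Adj z a) (hnb : ¬ G.Adj z b) :
    G.Adj a b := by
  by_contra hc
  exact hcl y z a b hyz ha hb haz.symm hab hbz.symm hna hc hnb

/-- the nested case: every neighbour of `z'` in `K` is a neighbour of `z`. -/
theorem g4_nested (h : MinCE G m) (hcl : Clawfree G) {K : Finset V} (hK : G.IsNClique (m + 1) K)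
    {z z' : V} (hz : D1 G K z) (hz' : D1 G K z') (hne : z ≠ z')
    (hsub : ∀ p ∈ K, G.Adj z' p → G.Adj z p) : G.Adj z z' := by
  by_contra hc
  obtain ⟨hzK, -⟩ := hz
  obtain ⟨hzK', p, hp, hpz'⟩ := hz'
  have hpz := hsub p hp hpz'
  obtain ⟨k, hk, hkz⟩ := not_complete h.free hK hzK
  have hkz' : ¬ G.Adj z' k := fun e => hkz (hsub k hk e)
  have hkp : p ≠ k := by
    rintro rfl
    exact hkz hpz
  have hpk : G.Adj p k := hK.1 hp hk hkp
  have hz'k : z' ≠ k := by
    rintro rfl
    exact hzK' hk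
  have hzk : z ≠ k := by
    rintro rfl
    exact hzK hk
  exact hcl p z z' k hpz.symm hpz'.symm hpk hne hz'k hzk hc hkz' hkz

theorem D1_nb_adj (h : MinCE G m) (hcl : Clawfree G) {K : Finset V} (hK : G.IsNClique (m + 1) K)
    {y z z' : V} (hy : Rem G K y) (hz : D1 G K z) (hz' : D1 G K z') (hyz : G.Adj y z)
    (hyz' : G.Adj y z') (hne : z ≠ z') : G.Adj z z' := by
  by_cases h1 : ∀ p ∈ K, G.Adj z' p → G.Adj z p
  · exact g4_nested h hcl hK hz hz' hne h1
  by_cases h2 : ∀ p ∈ K, G.Adj z p → G.Adj z' p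
  · exact (g4_nested h hcl hK hz' hz hne.symm h2).symm
  push Not at h1 h2
  obtain ⟨p', hp', hz'p', hzp'⟩ := h1
  obtain ⟨p, hp, hzp, hz'p⟩ := h2
  by_contra hc
  have hpp : p ≠ p' := by
    rintro rfl
    exact hzp' hzp
  have hadj : G.Adj p p' := hK.1 hp hp' hpp
  refine h.c5 y z p p' z' hyz hzp hadj hz'p'.symm hyz'.symm (hy.2 p hp) hzp' ?_ ?_ ?_
  · exact fun e => hz'p e.symm
  · exact fun e => hy.2 p' hp' e.symm
  · exact fun e => hc e.symm

end Pool.Agent.H92.TD
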