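import Mathlib
import Pool.Agent.H92.TD.Defs
import Pool.Agent.H92.TD.G4

/-!
Row TD_G5.  K an (m+1)-clique, z in D1, T_z := neighbours of z in Rem, nonempty (t0).
UU = neighbours of z outside K adjacent to all (other) members of T_z;  VV = neighbours of z in K or not complete to T_z.
Fix p ∈ K with z ~ p.
(T) T_z is a clique: t ≠ t' in T_z, t ≁ t' : claw at z with t, t', p (t, t' have no neighbour in K, t,t' ∉ K).
`UU_adj`: if `Rem G K x` then hx'.2.2 x gives x' ~ x; the same for x'.  Otherwise x, x' are both in D1 (x ∉ K and not Rem), and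
  x ≠ t0, x' ≠ t0, so x ~ t0, x' ~ t0, and `D1_nb_adj` with y := t0 gives x ~ x'.
`VV_adj`: an element x of VV outside K is not in Rem (else (T) contradicts the non-adjacent t), so it is in D1; let t be the member of
  T_z with x ≁ t.  x is adjacent to every p ∈ K with z ~ p (else claw at z with x, p, t: t≁p, x≁t, x≁p).
  Members of VV in K are adjacent to each other (clique).  So remains: x ≠ x' both outside K, with t, t' ∈ T_z, x ≁ t, x' ≁ t'.
  Suppose x ≁ x'.  Then x' ~ t (else claw at z with x, x', t), x ~ t' (same).  So t ≠ t', t ~ t' by (T).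
  Then  x, t', t, x', p  is an induced C5 (x~t', t'~t, t~x', x'~p, p~x; x≁t, t'≁x', t≁p, x'≁x, p≁t').  Contradiction.
`nice_of_D1`: N(z) = UU ∪ VV (filter), both are cliques of neighbours of z, so of size ≤ m by `card_le_of_clique_nb`.
-/

set_option autoImplicit false
set_option linter.unusedSectionVars false
set_option linter.unusedVariables false

namespace Pool.Agent.H92.TD

open SimpleGraph Finset

variable {V : Type} [Fintype V] {G : SimpleGraph V} {m : ℕ}

/-- neighbours of `z` outside `K` complete to `T_z`. -/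
def UU {V : Type} (G : SimpleGraph V) (K : Finset V) (z x : V) : Prop :=
  G.Adj z x ∧ x ∉ K ∧ ∀ t, Rem G K t → G.Adj z t → t ≠ x → G.Adj x t

/-- the other neighbours of `z`. -/
def VV {V : Type} (G : SimpleGraph V) (K : Finset V) (z x : V) : Prop :=
  G.Adj z x ∧ (x ∈ K ∨ ∃ t, Rem G K t ∧ G.Adj z t ∧ t ≠ x ∧ ¬ G.Adj x t)

theorem UU_or_VV {K : Finset V} {z x : V} (hx : G.Adj z x) : UU G K z x ∨ VV G K z x := by
  by_cases h1 : x ∈ K
  · exact Or.inr ⟨hx, Or.inl h1⟩
  · by_cases h2 : ∀ t, Rem G K t → G.Adj z t → t ≠ x → G.Adj x t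
    · exact Or.inl ⟨hx, h1, h2⟩
    · push Not at h2
      exact Or.inr ⟨hx, Or.inr h2⟩

theorem g5_T (hcl : Clawfree G) {K : Finset V} {z t t' : V} (hz : D1 G K z) (ht : Rem G K t)
    (ht' : Rem G K t') (hzt : G.Adj z t) (hzt' : G.Adj z t') (hne : t ≠ t') : G.Adj t t' := by
  by_contra hn
  obtain ⟨_, p, hp, hzp⟩ := hz
  exact hcl z t t' p hzt hzt' hzp hne (fun e => ht'.1 (e ▸ hp)) (fun e => ht.1 (e ▸ hp)) hn
    (ht'.2 p hp) (ht.2 p hp)

theorem g5_D1 {K : Finset V} {x : V} (hxK : x ∉ K) (hx : ¬ Rem G K x) : D1 G K x := by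
  refine ⟨hxK, ?_⟩
  by_contra hc
  push Not at hc
  exact hx ⟨hxK, hc⟩

theorem g5_ne {K : Finset V} {x t : V} (hx : D1 G K x) (ht : Rem G K t) : x ≠ t := by
  rintro rfl
  obtain ⟨_, k, hk, hxk⟩ := hx
  exact ht.2 k hk hxk

theorem UU_adj (h : MinCE G m) (hcl : Clawfree G) {K : Finset V} (hK : G.IsNClique (m + 1) K)
    {z t0 : V} (hz : D1 G K z) (ht0 : Rem G K t0) (hzt0 : G.Adj z t0)
    {x x' : V} (hx : UU G K z x) (hx' : UU G K z x') (hne : x ≠ x') : G.Adj x x' := by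
  by_cases h1 : Rem G K x
  · exact (hx'.2.2 x h1 hx.1 hne).symm
  by_cases h2 : Rem G K x'
  · exact hx.2.2 x' h2 hx'.1 (Ne.symm hne)
  have d1 := g5_D1 hx.2.1 h1
  have d2 := g5_D1 hx'.2.1 h2
  have a1 := hx.2.2 t0 ht0 hzt0 (Ne.symm (g5_ne d1 ht0))
  have a2 := hx'.2.2 t0 ht0 hzt0 (Ne.symm (g5_ne d2 ht0))
  exact D1_nb_adj h hcl hK ht0 d1 d2 a1.symm a2.symm hne

/-- a member of `VV` is adjacent to all neighbours of `z` in `K` (different from it). -/
theorem VV_complete (h : MinCE G m) (hcl : Clawfree G) {K : Finset V} (hK : G.IsNClique (m + 1) K)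
    {z t0 : V} (hz : D1 G K z) (ht0 : Rem G K t0) (hzt0 : G.Adj z t0)
    {x p : V} (hx : VV G K z x) (hp : p ∈ K) (hzp : G.Adj z p) (hne : x ≠ p) : G.Adj x p := by
  obtain ⟨hzx, hxK | ⟨t, ht, hzt, htx, hxt⟩⟩ := hx
  · exact hK.1 hxK hp hne
  · by_contra hn
    exact hcl z x p t hzx hzp hzt hne (fun e => ht.1 (e ▸ hp)) (Ne.symm htx) hn
      (fun hh => ht.2 p hp hh.symm) hxt

/-- a member of `VV` outside `K` is in `D1`. -/
theorem VV_D1 (h : MinCE G m) (hcl : Clawfree G) {K : Finset V} (hK : G.IsNClique (m + 1) K)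
    {z t0 : V} (hz : D1 G K z) (ht0 : Rem G K t0) (hzt0 : G.Adj z t0)
    {x : V} (hx : VV G K z x) (hxK : x ∉ K) : D1 G K x := by
  obtain ⟨hzx, hxK' | ⟨t, ht, hzt, htx, hxt⟩⟩ := hx
  · exact absurd hxK' hxK
  · refine g5_D1 hxK (fun hr => ?_)
    exact hxt (g5_T hcl hz hr ht hzx hzt (Ne.symm htx))

theorem VV_adj (h : MinCE G m) (hcl : Clawfree G) {K : Finset V} (hK : G.IsNClique (m + 1) K)
    {z t0 : V} (hz : D1 G K z) (ht0 : Rem G K t0) (hzt0 : G.Adj z t0)
    {x x' : V} (hx : VV G K z x) (hx' : VV G K z x') (hne : x ≠ x') : G.Adj x x' := by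
  by_cases h1 : x ∈ K
  · exact (VV_complete h hcl hK hz ht0 hzt0 hx' h1 hx.1 (Ne.symm hne)).symm
  by_cases h2 : x' ∈ K
  · exact VV_complete h hcl hK hz ht0 hzt0 hx h2 hx'.1 hne
  have d1 := VV_D1 h hcl hK hz ht0 hzt0 hx h1
  have d2 := VV_D1 h hcl hK hz ht0 hzt0 hx' h2
  obtain ⟨p, hp, hzp⟩ := hz.2
  have a1 := VV_complete h hcl hK hz ht0 hzt0 hx hp hzp (fun e => h1 (e ▸ hp))
  have a2 := VV_complete h hcl hK hz ht0 hzt0 hx' hp hzp (fun e => h2 (e ▸ hp))
  obtain ⟨hzx, hxK | ⟨t, ht, hzt, htx, hxt⟩⟩ := hx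
  · exact absurd hxK h1
  obtain ⟨hzx', hxK' | ⟨t', ht', hzt', htx', hxt'⟩⟩ := hx'
  · exact absurd hxK' h2
  by_contra hn
  have b1 : G.Adj x' t := by
    by_contra hc
    exact hcl z x x' t hzx hzx' hzt hne (g5_ne d2 ht) (Ne.symm htx) hn hc hxt
  have b2 : G.Adj x t' := by
    by_contra hc
    exact hcl z x' x t' hzx' hzx hzt' (Ne.symm hne) (g5_ne d1 ht') (Ne.symm htx')
      (fun hh => hn hh.symm) hc hxt'
  have htt : t ≠ t' := fun e => hxt (e ▸ b2)
  have b3 := g5_T hcl hz ht ht' hzt hzt' htt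
  exact h.c5 x t' t x' p b2 b3.symm b1.symm a2 a1.symm hxt (fun hh => hxt' hh.symm) (ht.2 p hp)
    (fun hh => hn hh.symm) (fun hh => ht'.2 p hp hh.symm)

theorem nice_of_D1 (h : MinCE G m) (hcl : Clawfree G) {K : Finset V} (hK : G.IsNClique (m + 1) K)
    {z t0 : V} (hz : D1 G K z) (ht0 : Rem G K t0) (hzt0 : G.Adj z t0) : Nice G m z := by
  classical
  have hU : (Finset.univ.filter (fun x => UU G K z x)).card ≤ m := by
    apply card_le_of_clique_nb h.free (z := z)
    · intro x hx x' hx' hne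
      simp only [Finset.coe_filter, Finset.mem_univ, true_and, Set.mem_ofPred_eq] at hx hx'
      exact UU_adj h hcl hK hz ht0 hzt0 hx hx' hne
    · intro x hx
      exact (Finset.mem_filter.mp hx).2.1
  have hV : (Finset.univ.filter (fun x => VV G K z x)).card ≤ m := by
    apply card_le_of_clique_nb h.free (z := z)
    · intro x hx x' hx' hne
      simp only [Finset.coe_filter, Finset.mem_univ, true_and, Set.mem_ofPred_eq] at hx hx'
      exact VV_adj h hcl hK hz ht0 hzt0 hx hx' hne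
    · intro x hx
      exact (Finset.mem_filter.mp hx).2.1
  have hsub : Nb G z ⊆ Finset.univ.filter (fun x => UU G K z x) ∪ Finset.univ.filter (fun x => VV G K z x) := by
    intro x hx
    rw [mem_Nb] at hx
    rw [Finset.mem_union, Finset.mem_filter, Finset.mem_filter]
    rcases UU_or_VV (K := K) hx with hh | hh
    · exact Or.inl ⟨Finset.mem_univ _, hh⟩
    · exact Or.inr ⟨Finset.mem_univ _, hh⟩
  have h1 := (Finset.card_le_card hsub).trans (Finset.card_union_le _ _)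
  unfold Nice
  omega

end Pool.Agent.H92.TD
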