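import Mathlib
import Pool.Agent.H92.TD.Defs
import Pool.Agent.H92.TD.G4

/-!
Row TD_Core6.  The local configuration of Step 6 is impossible.
Everything about colours is at a colouring c with St c z (exists: `h.min z`).  a := c y.
Notation N(z)∩A etc.:  L := NC G c a z,  L' := NC G c (!a) z; both are m-cliques (`NC_clique h hnz hc`).
 * y ∈ L.   p ∈ N(z), p ≁ y, p ≠ y, so p ∉ L, i.e. c p = !a  (p ∈ L').   t ≁ p, t ≠ p, t ∈ N(z) so t ∉ L', c t = a (t ∈ L).
   z' ∈ N(z), z' ≁ t, z' ≠ t (p ~ z', p ≁ t) so z' ∉ L, c z' = !a (z' ∈ L').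
 * c' := update c z (!a) = update c z (c z').  By `St_move h hnz hc` : St c' z'.   L1 := NC G c' a z', L1' := NC G c' (!a) z' are m-cliques
   (`NC_clique h hnz'`).   z ∈ L1'; p ∈ L1' (p ≠ z, c' p = c p = !a).   t' ∈ N(z'), t' ≁ p, t' ≠ p (p~z, t'≁z) so t' ∉ L1', t' ∈ L1.
   y ∈ L1 (y ≠ z, c' y = a).  Members x of L1 are ≠ z (c' z = !a) so c x = a; t' ≠ z because p ~ z and t' ≁ p.
 * c2 := update (update c z a) z' a.  CLAIM St c2 y.  Let K be an (m+1)-clique, c2 constant = b on K, suppose y ∉ K.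
     If z, z' ∉ K: c = c2 on K, so St c z gives z ∈ K, contradiction.   Otherwise b = a.
     z ∈ K, z' ∉ K:  K.erase z ⊆ L.erase y: m ≤ m - 1 (y ∈ L, m ≥ 1), contradiction.
     z' ∈ K, z ∉ K:  K.erase z' ⊆ L1.erase y: the same.
     both: (K.erase z).erase z' ⊆ (L.erase y).erase t  (members are adjacent to z' so ≠ t; c2 x = a and x ≠ z, z' so c x = a):
        m - 1 ≤ m - 2 with y ≠ t ∈ L (t ≁ z', y ~ z'), so m ≥ 2; contradiction.
 * `exists_clique_NC h (St c2 y) (!a)`: an m-clique M of neighbours x of y with c2 x = !a, so x ≠ z, x ≠ z', c x = !a.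
   M is not contained in L'.erase z' (size m - 1): so some mm ∈ M with mm ∉ L' (mm ≠ z'), i.e. mm ≁ z.
   mm ≁ z' : otherwise mm ∈ L1' (c' mm = c mm = !a), z ∈ L1', mm ≠ z, L1' clique, so mm ~ z.  Contradiction.   y ~ mm, mm ≠ z, z'.
 * x ∈ L \ L1 (x~z, c x = a, x ≁ z', as x ≠ z): x ≠ y, y ~ x (L clique), x ≠ z' (colours), x ≠ mm (colours); `nb_diff` at y with z' : x ~ mm.
   x' ∈ L1 \ L: x' ≁ z, x' ≠ z, x' ≠ y, y ~ x'; `nb_diff` at y with z : x' ~ mm.
   Then x ~ x': otherwise z, x, mm, x', z' is an induced C5 (z~x, x~mm, mm~x', x'~z', z'~z; z≁mm, x≁x', mm≁z', x'≁z, z'≁x).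
 * So L ∪ L1 is a clique, all of colour c = a, it does not contain z, and |L ∪ L1| ≥ |L| + 1 = m + 1 because t' ∈ L1 \ L (t' ≁ z).
   Take an (m+1)-subclique (`sub_clique`); it is monochromatic for c and avoids z: contradiction with St c z.
-/

set_option autoImplicit false
set_option linter.unusedSectionVars false
set_option linter.unusedVariables false

namespace Pool.Agent.H92.TD

open SimpleGraph Finset

variable {V : Type} [Fintype V] {G : SimpleGraph V} {m : ℕ}

theorem core6_same (h : MinCE G m) {c : V → Bool} {z u v : V} (hn : Nice G m z) (hc : St G m c z)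
    (hu : G.Adj z u) (hv : G.Adj z v) (huv : u ≠ v) (hcol : c v = c u) : G.Adj u v :=
  (NC_clique h hn hc (c u)).1 (mem_NC.2 ⟨hu, rfl⟩) (mem_NC.2 ⟨hv, hcol⟩) huv

theorem core6_diff (h : MinCE G m) {c : V → Bool} {z u v : V} (hn : Nice G m z) (hc : St G m c z)
    (hu : G.Adj z u) (hv : G.Adj z v) (huv : u ≠ v) (hna : ¬ G.Adj u v) : c v = !(c u) := by
  by_contra hne
  refine hna (core6_same h hn hc hu hv huv ?_)
  cases h1 : c u <;> cases h2 : c v <;> simp_all

/-- colouring with `z` and `z'` moved to the colour of `y` -/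
theorem core6_St2 (h : MinCE G m) {c : V → Bool} {y z z' t : V} (hnz : Nice G m z)
    (hnz' : Nice G m z') (hyz : G.Adj y z) (hyz' : G.Adj y z')
    (htz : G.Adj t z) (htz' : ¬ G.Adj t z') (hc : St G m c z) (b' : Bool) (hct : c t = c y)
    (hb' : b' = !(c y)) [DecidableEq V]
    (hc' : St G m (Function.update c z b') z')
    (c2 : V → Bool) (hc2z : c2 z = c y) (hc2z' : c2 z' = c y)
    (hc2 : ∀ x, x ≠ z → x ≠ z' → c2 x = c x) : St G m c2 y := by
  have hm := h.one
  intro K hK b hb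
  by_contra hyK
  have hyL : y ∈ NC G c (c y) z := mem_NC.2 ⟨hyz.symm, rfl⟩
  have htL : t ∈ NC G c (c y) z := mem_NC.2 ⟨htz.symm, hct⟩
  have hyt : y ≠ t := fun e => htz' (e ▸ hyz')
  have hLc := (NC_clique h hnz hc (c y)).2
  by_cases hz : z ∈ K
  · have hbb : b = c y := by rw [← hb z hz, hc2z]
    subst hbb
    by_cases hz' : z' ∈ K
    · have hzz : z' ≠ z := by
        intro e
        exact htz' (e ▸ htz)
      have hsub : (K.erase z).erase z' ⊆ ((NC G c (c y) z).erase y).erase t := by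
        intro x hx
        rw [Finset.mem_erase, Finset.mem_erase] at hx
        obtain ⟨hx1, hx2, hx3⟩ := hx
        rw [Finset.mem_erase, Finset.mem_erase, mem_NC]
        refine ⟨?_, fun e => hyK (e ▸ hx3), hK.1 hz hx3 (Ne.symm hx2), ?_⟩
        · intro e
          exact htz' (e ▸ hK.1 hx3 hz' hx1)
        · rw [← hc2 x hx2 hx1]
          exact hb x hx3
      have h1 := Finset.card_le_card hsub
      have h3 : y ∈ NC G c (c y) z := hyL
      have h4 : t ∈ (NC G c (c y) z).erase y := Finset.mem_erase.2 ⟨Ne.symm hyt, htL⟩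
      have h5 : 0 < ((NC G c (c y) z).erase y).card := Finset.card_pos.2 ⟨t, h4⟩
      rw [Finset.card_erase_of_mem (Finset.mem_erase.2 ⟨hzz, hz'⟩), Finset.card_erase_of_mem hz, hK.2,
        Finset.card_erase_of_mem h4] at h1
      rw [Finset.card_erase_of_mem hyL, hLc] at h1 h5
      omega
    · have hsub : K.erase z ⊆ (NC G c (c y) z).erase y := by
        intro x hx
        rw [Finset.mem_erase] at hx
        obtain ⟨hx2, hx3⟩ := hx
        rw [Finset.mem_erase, mem_NC]
        refine ⟨fun e => hyK (e ▸ hx3), hK.1 hz hx3 (Ne.symm hx2), ?_⟩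
        rw [← hc2 x hx2 (fun e => hz' (e ▸ hx3))]
        exact hb x hx3
      have h1 := Finset.card_le_card hsub
      rw [Finset.card_erase_of_mem hz, hK.2, Finset.card_erase_of_mem hyL, hLc] at h1
      omega
  · by_cases hz' : z' ∈ K
    · have hbb : b = c y := by rw [← hb z' hz', hc2z']
      subst hbb
      have hyz1 : y ≠ z := fun e => G.loopless.irrefl z (e ▸ hyz)
      have hyL1 : y ∈ NC G (Function.update c z b') (c y) z' := by
        rw [mem_NC]
        refine ⟨hyz'.symm, ?_⟩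
        rw [Function.update_of_ne hyz1]
      have hL1c := (NC_clique h hnz' hc' (c y)).2
      have hsub : K.erase z' ⊆ (NC G (Function.update c z b') (c y) z').erase y := by
        intro x hx
        rw [Finset.mem_erase] at hx
        obtain ⟨hx2, hx3⟩ := hx
        have hxz : x ≠ z := fun e => hz (e ▸ hx3)
        rw [Finset.mem_erase, mem_NC]
        refine ⟨fun e => hyK (e ▸ hx3), hK.1 hz' hx3 (Ne.symm hx2), ?_⟩
        rw [Function.update_of_ne hxz, ← hc2 x hxz hx2]
        exact hb x hx3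
      have h1 := Finset.card_le_card hsub
      rw [Finset.card_erase_of_mem hz', hK.2, Finset.card_erase_of_mem hyL1, hL1c] at h1
      omega
    · refine hz (hc K hK b ?_)
      intro x hx
      rw [← hc2 x (fun e => hz (e ▸ hx)) (fun e => hz' (e ▸ hx))]
      exact hb x hx

theorem core6 (h : MinCE G m) (hcl : Clawfree G) {y z z' t t' p : V} (hnz : Nice G m z)
    (hnz' : Nice G m z') (hyz : G.Adj y z) (hyz' : G.Adj y z') (hzz' : G.Adj z z')
    (hpz : G.Adj p z) (hpz' : G.Adj p z') (hpy : ¬ G.Adj p y) (hyp : y ≠ p)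
    (htz : G.Adj t z) (htz' : ¬ G.Adj t z') (htp : ¬ G.Adj t p)
    (ht'z' : G.Adj t' z') (ht'z : ¬ G.Adj t' z) (ht'p : ¬ G.Adj t' p) : False := by
  classical
  have hm := h.one
  obtain ⟨c, hc⟩ := h.min z
  obtain ⟨a, ha⟩ : ∃ a, a = c y := ⟨_, rfl⟩
  have hna : a ≠ !a := by cases a <;> simp
  have hcp : c p = !a := by
    rw [ha]
    exact core6_diff h hnz hc hyz.symm hpz.symm hyp (fun e => hpy e.symm)
  have htp' : t ≠ p := fun e => htz' (e ▸ hpz')
  have hct : c t = a := by
    have := core6_diff h hnz hc hpz.symm htz.symm (Ne.symm htp') (fun e => htp e.symm)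
    rw [this, hcp, Bool.not_not]
  have htz'' : t ≠ z' := fun e => htp (e ▸ hpz'.symm)
  have hcz' : c z' = !a := by
    have := core6_diff h hnz hc htz.symm hzz' htz'' htz'
    rw [this, hct]
  have hc' := St_move h hnz hc hzz'
  rw [hcz'] at hc'
  have hne : ∀ x, G.Adj z x → x ≠ z := fun x hx e => G.loopless.irrefl z (e ▸ hx)
  have hpz1 : p ≠ z := hne p hpz.symm
  have hyz1 : y ≠ z := hne y hyz.symm
  have hzc' : Function.update c z (!a) z = !a := Function.update_self _ _ _
  have hoc' : ∀ x, x ≠ z → Function.update c z (!a) x = c x := fun x hx => Function.update_of_ne hx _ _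
  have ht'p' : t' ≠ p := fun e => ht'z (e ▸ hpz)
  have ht'1 : t' ≠ z := fun e => ht'p (e ▸ hpz.symm)
  have hct' : c t' = a := by
    have := core6_diff h hnz' hc' hpz'.symm ht'z'.symm (Ne.symm ht'p') (fun e => ht'p e.symm)
    rw [hoc' _ hpz1, hoc' _ ht'1, hcp, Bool.not_not] at this
    exact this
  obtain ⟨c2, hc2⟩ : ∃ c2 : V → Bool, c2 = fun x => if x = z ∨ x = z' then a else c x := ⟨_, rfl⟩
  have h2z : c2 z = a := by simp [hc2]
  have h2z' : c2 z' = a := by simp [hc2]
  have h2o : ∀ x, x ≠ z → x ≠ z' → c2 x = c x := by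
    intro x h1 h2
    simp [hc2, h1, h2]
  have hSt2 : St G m c2 y := by
    refine core6_St2 h hnz hnz' hyz hyz' htz htz' hc (!a) (by rw [hct, ha]) (by rw [ha]) hc' c2 ?_ ?_ h2o
    · rw [h2z, ha]
    · rw [h2z', ha]
  obtain ⟨M, hM, hMc⟩ := exists_clique_NC h hSt2 (!a)
  have hMx : ∀ x ∈ M, G.Adj y x ∧ x ≠ z ∧ x ≠ z' ∧ c x = !a := by
    intro x hx
    have h1 := mem_NC.1 (hM hx)
    have h2 : x ≠ z := by
      intro e
      rw [e, h2z] at h1
      exact hna h1.2
    have h3 : x ≠ z' := by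
      intro e
      rw [e, h2z'] at h1
      exact hna h1.2
    exact ⟨h1.1, h2, h3, by rw [← h2o x h2 h3]; exact h1.2⟩
  obtain ⟨mm, hmm, hzmm⟩ : ∃ mm ∈ M, ¬ G.Adj z mm := by
    by_contra hcon
    push Not at hcon
    have hsub : M ⊆ (NC G c (!a) z).erase z' := by
      intro x hx
      have h1 := hMx x hx
      rw [Finset.mem_erase, mem_NC]
      exact ⟨h1.2.2.1, hcon x hx, h1.2.2.2⟩
    have h1 := Finset.card_le_card hsub
    rw [hMc.2, Finset.card_erase_of_mem (mem_NC.2 ⟨hzz', hcz'⟩), (NC_clique h hnz hc (!a)).2] at h1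
    omega
  obtain ⟨hymm, hmz, hmz', hcmm⟩ := hMx mm hmm
  have hz'mm : ¬ G.Adj z' mm := by
    intro e
    have h1 := core6_same h hnz' hc' hzz'.symm e (Ne.symm hmz) (by rw [hoc' _ hmz, hcmm, hzc'])
    exact hzmm h1
  have hLX : ∀ x, G.Adj z x → c x = a → ¬ G.Adj z' x → G.Adj x mm := by
    intro x hx1 hx2 hx3
    have hxy : x ≠ y := fun e => hx3 (e ▸ hyz'.symm)
    have hyx : G.Adj y x := core6_same h hnz hc hyz.symm hx1 (Ne.symm hxy) (by rw [hx2, ha])
    refine nb_diff hcl hyz' hyx hymm ?_ hmz' ?_ hx3 hz'mm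
    · intro e
      rw [e, hcz'] at hx2
      exact hna hx2.symm
    · intro e
      rw [e, hcmm] at hx2
      exact hna hx2.symm
  have hLY : ∀ x, G.Adj z' x → x ≠ z → c x = a → ¬ G.Adj z x → G.Adj x mm := by
    intro x hx1 hxz hx2 hx3
    have hxy : x ≠ y := fun e => hx3 (e ▸ hyz.symm)
    have hyx : G.Adj y x := core6_same h hnz' hc' hyz'.symm hx1 (Ne.symm hxy)
      (by rw [hoc' _ hxz, hoc' _ hyz1, hx2, ha])
    refine nb_diff hcl hyz hyx hymm hxz hmz ?_ hx3 hzmm
    intro e
    rw [e, hcmm] at hx2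
    exact hna hx2.symm
  have hXY : ∀ x x', G.Adj z x → c x = a → ¬ G.Adj z' x → G.Adj z' x' → x' ≠ z → c x' = a →
      ¬ G.Adj z x' → G.Adj x x' := by
    intro x x' h1 h2 h3 h4 h5 h6 h7
    by_contra hcon
    exact h.c5 z x mm x' z' h1 (hLX x h1 h2 h3) (hLY x' h4 h5 h6 h7).symm h4.symm hzz'.symm hzmm hcon
      (fun e => hz'mm e.symm) (fun e => h7 e.symm) h3
  have hL := NC_clique h hnz hc a
  have hL1 := NC_clique h hnz' hc' a
  have mL : ∀ x, x ∈ NC G c a z ↔ G.Adj z x ∧ c x = a := fun x => mem_NC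
  have mL1 : ∀ x, x ∈ NC G (Function.update c z (!a)) a z' ↔ G.Adj z' x ∧ x ≠ z ∧ c x = a := by
    intro x
    rw [mem_NC]
    constructor
    · rintro ⟨h1, h2⟩
      have hxz : x ≠ z := by
        intro e
        rw [e, hzc'] at h2
        exact hna h2.symm
      rw [hoc' _ hxz] at h2
      exact ⟨h1, hxz, h2⟩
    · rintro ⟨h1, h2, h3⟩
      rw [hoc' _ h2]
      exact ⟨h1, h3⟩
  have hcross : ∀ u v, u ∈ NC G c a z → v ∈ NC G (Function.update c z (!a)) a z' → u ≠ v → G.Adj u v := by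
    intro u v hu hv huv
    by_cases hvL : v ∈ NC G c a z
    · exact hL.1 hu hvL huv
    by_cases huL : u ∈ NC G (Function.update c z (!a)) a z'
    · exact hL1.1 huL hv huv
    have hu' := (mL u).1 hu
    have hv' := (mL1 v).1 hv
    refine hXY u v hu'.1 hu'.2 ?_ hv'.1 hv'.2.1 hv'.2.2 ?_
    · intro e
      exact huL ((mL1 u).2 ⟨e, hne u hu'.1, hu'.2⟩)
    · intro e
      exact hvL ((mL v).2 ⟨e, hv'.2.2⟩)
  have hcl2 : G.IsClique ((NC G c a z ∪ NC G (Function.update c z (!a)) a z' : Finset V) : Set V) := by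
    intro u hu v hv huv
    rw [Finset.mem_coe, Finset.mem_union] at hu hv
    rcases hu with hu | hu
    · rcases hv with hv | hv
      · exact hL.1 hu hv huv
      · exact hcross u v hu hv huv
    · rcases hv with hv | hv
      · exact (hcross v u hv hu (Ne.symm huv)).symm
      · exact hL1.1 hu hv huv
  have ht'L : t' ∉ NC G c a z := fun e => ht'z ((mL t').1 e).1.symm
  have ht'L1 : t' ∈ NC G (Function.update c z (!a)) a z' := (mL1 t').2 ⟨ht'z'.symm, ht'1, hct'⟩
  have hcard : m + 1 ≤ (NC G c a z ∪ NC G (Function.update c z (!a)) a z').card := by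
    have h1 : insert t' (NC G c a z) ⊆ NC G c a z ∪ NC G (Function.update c z (!a)) a z' := by
      intro x hx
      rw [Finset.mem_insert] at hx
      rw [Finset.mem_union]
      rcases hx with hx | hx
      · right
        rw [hx]
        exact ht'L1
      · left
        exact hx
    have h2 := Finset.card_le_card h1
    rw [Finset.card_insert_of_notMem ht'L, hL.2] at h2
    exact h2
  obtain ⟨K0, hK0, hK0c⟩ := sub_clique hcl2 hcard
  have hzK : z ∈ K0 := by
    refine hc K0 hK0c a ?_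
    intro x hx
    have h1 := hK0 hx
    rw [Finset.mem_union] at h1
    rcases h1 with h1 | h1
    · exact ((mL x).1 h1).2
    · exact ((mL1 x).1 h1).2.2
  have h1 := hK0 hzK
  rw [Finset.mem_union] at h1
  rcases h1 with h1 | h1
  · exact G.loopless.irrefl z ((mL z).1 h1).1
  · exact ((mL1 z).1 h1).2.1 rfl

end Pool.Agent.H92.TD
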