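import Mathlib
import Pool.Agent.H92.TD.Defs
import Pool.Agent.H92.TD.G4
import Pool.Agent.H92.TD.G5
import Pool.Agent.H92.TD.Core6

/-!
Row TD_Step6.  K an (m+1)-clique, y in Rem with a neighbour z0 in D1.  Then y is nice (degree ≤ 2m).
PROOF.  Among the vertices z with D1 G K z and y ~ z choose one with |P(z)| maximal, P(z) := K.filter (z ~ ·), and then with
|T_z| minimal, T_z := univ.filter (Rem ∧ z ~ ·)  (e.g. maximise the number |P(z)| * (card V + 1) + (card V - |T_z|), by
`Finset.exists_max_image`).  z is nice by `nice_of_D1` (t0 := y).  Every neighbour of y is: z, or in UU z, or in VV z, or nonadjacent to z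
(and ≠ z).
Case J = ∅: no x with y ~ x and VV G K z x.  Then N(y) ⊆ {z} ∪ (UUset.erase y) ∪ (N(y) \ N[z]):
   UUset := filter UU is a clique of neighbours of z (`UU_adj`), size ≤ m (`card_le_of_clique_nb`), y ∈ UUset? y ∈ Rem, z ~ y; y is adjacent to
   every other t ∈ T_z: claw at z with y, t, p otherwise (p ∈ K, z ~ p).  So |UUset.erase y| ≤ m - 1.
   N(y) \ N[z] is a clique (`nb_diff`) of neighbours of y, so size ≤ m.   Total ≤ 1 + (m-1) + m = 2m (m ≥ 1).
Case J ∋ z': y ~ z', VV G K z z'.  z' ∉ K (y has no neighbour in K), so D1 G K z' (`VV_D1`) and z' ~ every p ∈ K with z ~ p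
   (`VV_complete`), so P(z) ⊆ P(z'), |P(z)| ≤ |P(z')|; maximality gives |P(z')| = |P(z)| and then |T_z| ≤ |T_{z'}|.
   From VV and z' ∉ K: t with Rem t, z ~ t, t ≠ z', z' ≁ t.  t ∈ T_z \ T_{z'}; since |T_z| ≤ |T_{z'}| there is t' ∈ T_{z'} \ T_z: Rem t', z' ~ t', z ≁ t'.
   z' is nice (`nice_of_D1`, t0 := y).  Fix p ∈ K with z ~ p.  Apply `core6` with y z z' t t' p: y≁p, t≁p, t'≁p because they are in Rem; y ≠ p since y ∉ K.
-/

set_option autoImplicit false
set_option linter.unusedSectionVars false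
set_option linter.unusedVariables false

namespace Pool.Agent.H92.TD

open SimpleGraph Finset

variable {V : Type} [Fintype V] {G : SimpleGraph V} {m : ℕ}

/-- the case without neighbours of `y` in `VV`. -/
theorem step6_empty (h : MinCE G m) (hcl : Clawfree G) {K : Finset V} (hK : G.IsNClique (m + 1) K)
    {y z : V} (hy : Rem G K y) (hz : D1 G K z) (hyz : G.Adj y z)
    (hJ : ∀ x, G.Adj y x → ¬ VV G K z x) : Nice G m y := by
  classical
  have hm := h.one
  have hU : (Finset.univ.filter (fun x => UU G K z x)).card ≤ m := by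
    apply card_le_of_clique_nb h.free (z := z)
    · intro x hx x' hx' hne
      simp only [Finset.coe_filter, Finset.mem_univ, true_and, Set.mem_ofPred_eq] at hx hx'
      exact UU_adj h hcl hK hz hy hyz.symm hx hx' hne
    · intro x hx
      exact (Finset.mem_filter.mp hx).2.1
  have hyU : y ∈ Finset.univ.filter (fun x => UU G K z x) := by
    rw [Finset.mem_filter]
    exact ⟨Finset.mem_univ _, hyz.symm, hy.1, fun t ht hzt hty =>
      g5_T hcl hz hy ht hyz.symm hzt (Ne.symm hty)⟩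
  have hW : ((Nb G y).filter (fun x => x ≠ z ∧ ¬ G.Adj z x)).card ≤ m := by
    apply card_le_of_clique_nb h.free (z := y)
    · intro x hx x' hx' hne
      rw [Finset.mem_coe, Finset.mem_filter, mem_Nb] at hx hx'
      exact nb_diff hcl hyz hx.1 hx'.1 hx.2.1 hx'.2.1 hne hx.2.2 hx'.2.2
    · intro x hx
      rw [Finset.mem_filter, mem_Nb] at hx
      exact hx.1
  have hsub : Nb G y ⊆ insert z ((Finset.univ.filter (fun x => UU G K z x)).erase y ∪
      (Nb G y).filter (fun x => x ≠ z ∧ ¬ G.Adj z x)) := by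
    intro x hx
    have hx1 := mem_Nb.1 hx
    rw [Finset.mem_insert, Finset.mem_union, Finset.mem_erase, Finset.mem_filter, Finset.mem_filter]
    by_cases h1 : x = z
    · exact Or.inl h1
    · right
      by_cases h2 : G.Adj z x
      · left
        rcases UU_or_VV (K := K) h2 with h3 | h3
        · exact ⟨fun e => G.loopless.irrefl y (e ▸ hx1), Finset.mem_univ _, h3⟩
        · exact absurd h3 (hJ x hx1)
      · right
        exact ⟨hx, h1, h2⟩
  have h1 := Finset.card_le_card hsub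
  have h2 := Finset.card_insert_le z ((Finset.univ.filter (fun x => UU G K z x)).erase y ∪
      (Nb G y).filter (fun x => x ≠ z ∧ ¬ G.Adj z x))
  have h3 := Finset.card_union_le ((Finset.univ.filter (fun x => UU G K z x)).erase y)
      ((Nb G y).filter (fun x => x ≠ z ∧ ¬ G.Adj z x))
  rw [Finset.card_erase_of_mem hyU] at h3
  have h4 : 0 < (Finset.univ.filter (fun x => UU G K z x)).card := Finset.card_pos.2 ⟨y, hyU⟩
  unfold Nice
  omega

theorem nice_of_Rem (h : MinCE G m) (hcl : Clawfree G) {K : Finset V} (hK : G.IsNClique (m + 1) K)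
    {y z0 : V} (hy : Rem G K y) (hz0 : D1 G K z0) (hyz0 : G.Adj y z0) : Nice G m y := by
  classical
  obtain ⟨Pn, hPn⟩ : ∃ Pn : V → ℕ, ∀ z, Pn z = (K.filter (fun p => G.Adj z p)).card := ⟨_, fun _ => rfl⟩
  obtain ⟨Tn, hTn⟩ : ∃ Tn : V → ℕ, ∀ z, Tn z =
      (Finset.univ.filter (fun t => Rem G K t ∧ G.Adj z t)).card := ⟨_, fun _ => rfl⟩
  have hTle : ∀ z, Tn z ≤ Fintype.card V := by
    intro z
    rw [hTn]
    exact Finset.card_le_univ _
  obtain ⟨z, hzS, hmax⟩ := Finset.exists_max_image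
    (Finset.univ.filter (fun z => D1 G K z ∧ G.Adj y z))
    (fun z => Pn z * (Fintype.card V + 1) + (Fintype.card V - Tn z))
    ⟨z0, Finset.mem_filter.2 ⟨Finset.mem_univ _, hz0, hyz0⟩⟩
  rw [Finset.mem_filter] at hzS
  obtain ⟨-, hz, hyz⟩ := hzS
  by_cases hJ : ∀ x, G.Adj y x → ¬ VV G K z x
  · exact step6_empty h hcl hK hy hz hyz hJ
  exfalso
  push Not at hJ
  obtain ⟨z', hyz', hVV⟩ := hJ
  have hzz' : G.Adj z z' := hVV.1
  have hz'K : z' ∉ K := fun e => hy.2 z' e hyz'
  have hz' := VV_D1 h hcl hK hz hy hyz.symm hVV hz'K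
  have hcomp : ∀ p ∈ K, G.Adj z p → G.Adj z' p := fun p hp hzp =>
    VV_complete h hcl hK hz hy hyz.symm hVV hp hzp (fun e => hz'K (e ▸ hp))
  have hPle : Pn z ≤ Pn z' := by
    rw [hPn, hPn]
    refine Finset.card_le_card ?_
    intro p hp
    rw [Finset.mem_filter] at hp ⊢
    exact ⟨hp.1, hcomp p hp.1 hp.2⟩
  have hm2 := hmax z' (Finset.mem_filter.2 ⟨Finset.mem_univ _, hz', hyz'⟩)
  have hTT : Tn z ≤ Tn z' := by
    have h1 := hTle z
    have h2 := hTle z'
    rcases Nat.eq_or_lt_of_le hPle with h3 | h3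
    · rw [h3] at hm2
      omega
    · have h4 := Nat.mul_le_mul_right (Fintype.card V + 1) (Nat.succ_le_of_lt h3)
      have h5 : (Pn z).succ * (Fintype.card V + 1) =
          Pn z * (Fintype.card V + 1) + (Fintype.card V + 1) := Nat.succ_mul _ _
      have h6 : Pn z' * (Fintype.card V + 1) + (Fintype.card V - Tn z') ≤
          Pn z * (Fintype.card V + 1) + (Fintype.card V - Tn z) := hm2
      omega
  obtain ⟨t, ht, hzt, htz', hz't⟩ : ∃ t, Rem G K t ∧ G.Adj z t ∧ t ≠ z' ∧ ¬ G.Adj z' t := by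
    rcases hVV.2 with h1 | h1
    · exact absurd h1 hz'K
    · exact h1
  obtain ⟨t', ht', hz't', hzt'⟩ : ∃ t', Rem G K t' ∧ G.Adj z' t' ∧ ¬ G.Adj z t' := by
    by_contra hcon
    push Not at hcon
    have htm : t ∈ Finset.univ.filter (fun t => Rem G K t ∧ G.Adj z t) :=
      Finset.mem_filter.2 ⟨Finset.mem_univ _, ht, hzt⟩
    have hsub : Finset.univ.filter (fun t => Rem G K t ∧ G.Adj z' t) ⊆
        (Finset.univ.filter (fun t => Rem G K t ∧ G.Adj z t)).erase t := by
      intro x hx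
      rw [Finset.mem_filter] at hx
      rw [Finset.mem_erase, Finset.mem_filter]
      exact ⟨fun e => hz't (e ▸ hx.2.2), Finset.mem_univ _, hx.2.1, hcon x hx.2.1 hx.2.2⟩
    have h1 := Finset.card_le_card hsub
    rw [Finset.card_erase_of_mem htm] at h1
    have h2 : 0 < (Finset.univ.filter (fun t => Rem G K t ∧ G.Adj z t)).card :=
      Finset.card_pos.2 ⟨t, htm⟩
    rw [hTn, hTn] at hTT
    omega
  obtain ⟨p, hp, hzp⟩ := hz.2
  have hnz := nice_of_D1 h hcl hK hz hy hyz.symm
  have hnz' := nice_of_D1 h hcl hK hz' hy hyz'.symm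
  exact core6 h hcl hnz hnz' hyz hyz' hzz' hzp.symm (hcomp p hp hzp).symm
    (fun e => hy.2 p hp e.symm) (fun e => hy.1 (e ▸ hp)) hzt.symm (fun e => hz't e.symm)
    (ht.2 p hp) hz't'.symm (fun e => hzt' e.symm) (ht'.2 p hp)

end Pool.Agent.H92.TD
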