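import Mathlib
import Pool.Agent.H92.TD.Defs
import Pool.Agent.H92.TD.G4
import Pool.Agent.H92.TD.G5
import Pool.Agent.H92.TD.Step6
import Pool.Agent.H92.TD.Conn

/-!
Row TD_Step7.  All vertices of a claw-free minimal counterexample are nice.
PROOF.  Let v be a vertex; `exists_remote h v` : an (m+1)-clique K with Rem G K v.  `exists_layer (connected_of h) K` (K nonempty) gives d.
CLAIM (strong induction on n): for every y with d y = n and Rem G K y : Nice y.   (d y ≥ 2 since y ∉ K, and d y = 1 would give a neighbour x with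
d x = 0, x ∈ K.)  Generally: d x = 1 → D1 G K x;  d x ≥ 2 → Rem G K x.
 y1 ~ y with d y1 = n - 1.  If n = 2: D1 G K y1, so `nice_of_Rem h hcl hK hy`.
 n ≥ 3: y2 ~ y1 with d y2 = n - 2, y3 ~ y2 with d y3 = n - 3 (n - 2 ≥ 1).
  y2 is nice: if n = 3: d y2 = 1, D1 y2, y1 is Rem (d y1 = 2), y2 ~ y1: `nice_of_D1`.  If n ≥ 4: Rem y2 and induction.
  Take c with St c y2 (`h.min y2`).  `NC_clique h (nice y2) hc b` : N(y2) ∩ colour b is an m-clique for each b.
  y1 ≠ y3, y1 ≁ y3 (d differs by 2), both in N(y2), so c y1 ≠ c y3.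
  K2 := insert y2 (NC G c (c y3) y2), an (m+1)-clique (`clique_insert`, all adjacent to y2).
  Rem G K2 y: every x ∈ K2 has d x ≤ n - 2: x = y2, or x ∈ NC(c y3): x = y3 or x ~ y3 (clique) so d x ≤ d y3 + 1 = n - 2.  A vertex x with x = y or y ~ x has
  d x ≥ n - 1.  So y ∉ K2 and y is nonadjacent to all of K2.
  D1 G K2 y1: y1 ~ y2 ∈ K2; y1 ∉ K2: y1 ≠ y2, and c y1 ≠ c y3.
  `nice_of_Rem h hcl hK2 (Rem G K2 y) (D1 G K2 y1) (y ~ y1)` : Nice y.
-/

set_option autoImplicit false
set_option linter.unusedSectionVars false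
set_option linter.unusedVariables false

namespace Pool.Agent.H92.TD

open SimpleGraph Finset

variable {V : Type} [Fintype V] {G : SimpleGraph V} {m : ℕ}

theorem all_nice (h : MinCE G m) (hcl : Clawfree G) (v : V) : Nice G m v := by
  classical
  obtain ⟨K, hK, hv⟩ := exists_remote h v
  have hKne : K.Nonempty := by
    rw [← Finset.card_pos, hK.2]
    omega
  obtain ⟨d, hd0, hd1, hd2⟩ := exists_layer (connected_of h) K hKne
  have hRem : ∀ x, 2 ≤ d x → Rem G K x := by
    intro x hx
    refine ⟨fun hxK => ?_, fun k hk hxk => ?_⟩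
    · have := (hd0 x).2 hxK
      omega
    · have h0 := (hd0 k).2 hk
      have := hd1 x k hxk
      omega
  have hD1 : ∀ x, d x = 1 → D1 G K x := by
    intro x hx
    refine ⟨fun hxK => ?_, ?_⟩
    · have := (hd0 x).2 hxK
      omega
    · obtain ⟨y, hxy, hy⟩ := hd2 x (by omega)
      exact ⟨y, (hd0 y).1 (by omega), hxy⟩
  have hd2' : ∀ y, Rem G K y → 2 ≤ d y := by
    intro y hy
    have h0 : d y ≠ 0 := fun e => hy.1 ((hd0 y).1 e)
    obtain ⟨x, hyx, hx⟩ := hd2 y h0
    by_contra hc
    have h1 : d x = 0 := by omega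
    exact hy.2 x ((hd0 x).1 h1) hyx
  have key : ∀ n, ∀ y, d y = n → Rem G K y → Nice G m y := by
    intro n
    induction n using Nat.strong_induction_on with
    | _ n ih =>
      intro y hyn hy
      have hy2 := hd2' y hy
      obtain ⟨y1, hyy1, hy1⟩ := hd2 y (by omega)
      by_cases hn2 : n = 2
      · exact nice_of_Rem h hcl hK hy (hD1 y1 (by omega)) hyy1
      · obtain ⟨y2, hy12, hy2'⟩ := hd2 y1 (by omega)
        obtain ⟨y3, hy23, hy3⟩ := hd2 y2 (by omega)
        have hnice2 : Nice G m y2 := by
          by_cases hn3 : n = 3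
          · exact nice_of_D1 h hcl hK (hD1 y2 (by omega)) (hRem y1 (by omega)) hy12.symm
          · exact ih (n - 2) (by omega) y2 (by omega) (hRem y2 (by omega))
        obtain ⟨c, hc⟩ := h.min y2
        have hclq := fun b => NC_clique h hnice2 hc b
        have hne13 : y1 ≠ y3 := by
          rintro rfl
          omega
        have hnadj13 : ¬ G.Adj y1 y3 := fun e => by
          have := hd1 y1 y3 e
          omega
        have h3 : y3 ∈ NC G c (c y3) y2 := mem_NC.2 ⟨hy23, rfl⟩
        have hcne : c y1 ≠ c y3 := by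
          intro e
          have h1 : y1 ∈ NC G c (c y3) y2 := mem_NC.2 ⟨hy12.symm, e⟩
          exact hnadj13 ((hclq (c y3)).1 h1 h3 hne13)
        have hK2 : G.IsNClique (m + 1) (insert y2 (NC G c (c y3) y2)) :=
          clique_insert (hclq _) (fun k hk => (mem_NC.1 hk).1)
        have hdK2 : ∀ x ∈ insert y2 (NC G c (c y3) y2), d x ≤ n - 2 := by
          intro x hx
          rw [Finset.mem_insert] at hx
          rcases hx with rfl | hx
          · omega
          · by_cases e : x = y3
            · subst e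
              omega
            · have := hd1 x y3 ((hclq (c y3)).1 hx h3 e)
              omega
        have hR : Rem G (insert y2 (NC G c (c y3) y2)) y := by
          refine ⟨fun hx => ?_, fun k hk e => ?_⟩
          · have := hdK2 y hx
            omega
          · have h5 := hdK2 k hk
            have h6 := hd1 y k e
            omega
        have hD : D1 G (insert y2 (NC G c (c y3) y2)) y1 := by
          refine ⟨fun hx => ?_, y2, Finset.mem_insert_self _ _, hy12⟩
          rw [Finset.mem_insert] at hx
          rcases hx with e | hx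
          · exact G.ne_of_adj hy12 e
          · exact hcne (mem_NC.1 hx).2
        exact nice_of_Rem h hcl hK2 hR hD hyy1
  exact key (d v) v rfl hv

end Pool.Agent.H92.TD
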