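import Mathlib
import Pool.Agent.H92.TD.Defs
import Pool.Agent.H92.TD.Step8a
import Pool.Agent.H92.TD.Reach
import Pool.Agent.H92.TD.Conn
import Pool.Agent.H92.TD.Step7

/-!
Row TD_Step8b.  m ≥ 2: contradiction.
PROOF.  hn := all_nice h hcl.  V is nonempty (`h.bad (fun _ => true)` gives a nonempty clique).  Fix z and c with St c z (`h.min z`), and d from
`exists_layer (connected_of h) {z}` (so d y = 0 ↔ y = z).  x := a vertex with d x maximal (`Finset.exists_max_image univ`).
d x ≠ 0: z has a neighbour (z is in no... `exists_clique_NC h hc true`: an m-clique of neighbours of z, m ≥ 1, so some neighbour y ≠ z, d y ≥ 1).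
p with x ~ p, d p + 1 = d x.  F from `far_clique` (p ~ x), |F| = m ≥ 2.  f ∈ F with d f minimal (`Finset.exists_min_image`), f' ∈ F, f' ≠ f (`Finset.exists_mem_ne`).
d f ≠ 0: otherwise f = z; x ~ z gives d x ≤ 1, so d p = 0, p = z = f: contradiction with f ≠ p.
g with f ~ g, d g + 1 = d f.   g ≠ x since d g < d f ≤ d x.   g ≠ f' since d g < d f ≤ d f'.
g ≁ x: suppose g ~ x.  g ∈ F would contradict minimality.  So (g ∈ N(x)) g = p or p ~ g.  g = p: then p ~ f (f ~ g), contradiction with f ∈ F.  p ~ g: `nb_trans` at x with p, g, f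
   (x ~ p, x ~ g, x ~ f, p ~ g, g ~ f, p ≠ f): p ~ f, contradiction.
g ≁ f': suppose g ~ f'.  `nb_trans` at f with g, f', x (f ~ g; f ~ f' since F is a clique; f ~ x; g ~ f'; f' ~ x; g ≠ x): g ~ x, contradiction.
`st8` with p := g, x := f: u := x: c x ≠ c f;  u := f': c f' ≠ c f.     `st8` with p, x: u := f: c f ≠ c x; u := f': c f' ≠ c x.
Bool has two elements: contradiction.
-/

set_option autoImplicit false
set_option linter.unusedSectionVars false
set_option linter.unusedVariables false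

namespace Pool.Agent.H92.TD

open SimpleGraph Finset

variable {V : Type} [Fintype V] {G : SimpleGraph V} {m : ℕ}

theorem no_CE (h : MinCE G m) (hcl : Clawfree G) (hm : 2 ≤ m) : False := by
  classical
  have hn := all_nice h hcl
  obtain ⟨b0, K0, hK0, _⟩ := h.bad (fun _ => true)
  have hK0c : 0 < K0.card := by rw [hK0.2]; omega
  obtain ⟨z, _⟩ := Finset.card_pos.1 hK0c
  obtain ⟨c, hc⟩ := h.min z
  obtain ⟨d, hd0', hd1, hd2⟩ := exists_layer (connected_of h) ({z} : Finset V)
    (Finset.singleton_nonempty z)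
  have hd0 : ∀ y, d y = 0 ↔ y = z := fun y => by rw [hd0' y, Finset.mem_singleton]
  obtain ⟨x, _, hx⟩ := Finset.exists_max_image (Finset.univ : Finset V) d ⟨z, Finset.mem_univ z⟩
  have hxm : ∀ y, d y ≤ d x := fun y => hx y (Finset.mem_univ y)
  have hdx : d x ≠ 0 := by
    obtain ⟨Lq, hL, hLc⟩ := exists_clique_NC h hc true
    have h0 : 0 < Lq.card := by rw [hLc.2]; omega
    obtain ⟨y, hy⟩ := Finset.card_pos.1 h0
    have hzy := (mem_NC.1 (hL hy)).1
    have hyz : y ≠ z := fun e => hzy.ne e.symm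
    have h1 : d y ≠ 0 := fun e => hyz ((hd0 y).1 e)
    have h2 := hxm y
    omega
  obtain ⟨p, hxp, hdp⟩ := hd2 x hdx
  obtain ⟨F, hF, hFm⟩ := far_clique h hn hxp.symm
  have hF2 : 1 < F.card := by rw [hF.2]; omega
  obtain ⟨f, hfF, hfmin⟩ := Finset.exists_min_image F d (Finset.card_pos.1 (by omega))
  obtain ⟨f', hf'F, hff'⟩ := Finset.exists_mem_ne hF2 f
  obtain ⟨hxf, hfp, hpf⟩ := (hFm f).1 hfF
  obtain ⟨hxf', hf'p, hpf'⟩ := (hFm f').1 hf'F
  have hdf : d f ≠ 0 := by
    intro e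
    have hfz := (hd0 f).1 e
    have h1 := hd1 x f hxf
    have h2 : d p = 0 := by omega
    exact hfp (hfz.trans ((hd0 p).1 h2).symm)
  obtain ⟨g, hfg, hdg⟩ := hd2 f hdf
  have hgx : g ≠ x := by
    intro e
    have h1 := hxm f
    rw [e] at hdg
    omega
  have hgf' : g ≠ f' := by
    intro e
    have h1 := hfmin f' hf'F
    rw [e] at hdg
    omega
  have hgx' : ¬ G.Adj g x := by
    intro hgx1
    by_cases hgp : g = p
    · exact hpf (hgp ▸ hfg.symm)
    by_cases hpg : G.Adj p g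
    · exact hpf (nb_trans h hn (v := x) hxp hgx1.symm hxf hpg hfg.symm (Ne.symm hfp))
    · have h1 : g ∈ F := (hFm g).2 ⟨hgx1.symm, hgp, hpg⟩
      have h2 := hfmin g h1
      omega
  have hff : G.Adj f f' := hF.1 hfF hf'F (Ne.symm hff')
  have hgf'' : ¬ G.Adj g f' := by
    intro h1
    exact hgx' (nb_trans h hn (v := f) hfg hff hxf.symm h1 hxf'.symm hgx)
  have e1 := st8 h hn hc hd0 hd1 hd2 hfg.symm hdg hxf.symm (Ne.symm hgx) hgx'
  have e2 := st8 h hn hc hd0 hd1 hd2 hfg.symm hdg hff (Ne.symm hgf') hgf''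
  have e3 := st8 h hn hc hd0 hd1 hd2 hxp.symm hdp hxf hfp hpf
  have e4 := st8 h hn hc hd0 hd1 hd2 hxp.symm hdp hxf' hf'p hpf'
  revert e1 e2 e3 e4
  cases c x <;> cases c f <;> cases c f' <;> simp

end Pool.Agent.H92.TD
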