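import Mathlib
import Pool.Agent.H92.TD.Defs
import Pool.Agent.H92.TD.Step8b
import Pool.Agent.H92.TD.Cycle
import Pool.Agent.H92.TD.Conv

/-!
The induction for a class of graphs closed under vertex deletion whose minimal counterexamples are
claw-free.
-/

set_option autoImplicit false
set_option linter.unusedSectionVars false
set_option linter.unusedVariables false

namespace Pool.Agent.H92.TD

open SimpleGraph Finset

theorem c5free_induce {V : Type} {G : SimpleGraph V} (s : Set V) (h : C5free G) :
    C5free (G.induce s) := by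
  intro a b c d e h1 h2 h3 h4 h5 n1 n2 n3 n4 n5
  exact h a b c d e h1 h2 h3 h4 h5 n1 n2 n3 n4 n5

/-- restriction of a good colouring of `G - z` -/
theorem gen_min {m : ℕ} {V : Type} [Fintype V] {G : SimpleGraph V} (z : V)
    (hc : ∃ c0 : ↥({z}ᶜ : Set V) → Bool, ∀ K : Finset ↥({z}ᶜ : Set V),
      (G.induce ({z}ᶜ : Set V)).IsNClique (m + 1) K → ∀ b : Bool, ¬ ∀ x ∈ K, c0 x = b) :
    ∃ c : V → Bool, St G m c z := by
  classical
  obtain ⟨c0, hc0⟩ := hc
  refine ⟨fun x => if hx : x ∈ ({z}ᶜ : Set V) then c0 ⟨x, hx⟩ else true, ?_⟩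
  intro K hK b hb
  by_contra hz
  have hmem : ∀ x ∈ K, x ∈ ({z}ᶜ : Set V) := by
    intro x hx
    simp only [Set.mem_compl_iff, Set.mem_singleton_iff]
    rintro rfl
    exact hz hx
  refine hc0 (K.subtype (fun x => x ∈ ({z}ᶜ : Set V))) ?_ b ?_
  · refine ⟨?_, ?_⟩
    · intro x hx y hy hxy
      rw [Finset.mem_coe, Finset.mem_subtype] at hx hy
      exact hK.1 hx hy (fun e => hxy (Subtype.ext e))
    · rw [Finset.card_subtype, Finset.filter_true_of_mem hmem]
      exact hK.2
  · intro x hx
    rw [Finset.mem_subtype] at hx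
    have h1 := hb x.1 hx
    have h2 : (if hx : x.1 ∈ ({z}ᶜ : Set V) then c0 ⟨x.1, hx⟩ else true) = b := h1
    rw [dif_pos x.2] at h2
    exact h2

/-- The induction. `P` is a class of graphs closed under vertex deletion. -/
theorem core_gen (m : ℕ) (hm : 1 ≤ m) (P : ∀ V : Type, SimpleGraph V → Prop)
    (hdel : ∀ (V : Type) [Fintype V] (G : SimpleGraph V) (z : V), P V G →
      P _ (G.induce ({z}ᶜ : Set V)))
    (hcl : ∀ (V : Type) [Fintype V] (G : SimpleGraph V), P V G → MinCE G m → Clawfree G)
    (h1 : m = 1 → ∀ (V : Type) [Fintype V] (G : SimpleGraph V), P V G → OddHoleFree G) :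
    ∀ (V : Type) [Fintype V] (G : SimpleGraph V),
      G.CliqueFree (m + 2) → C5free G → P V G →
      ∃ c : V → Bool, ∀ K : Finset V, G.IsNClique (m + 1) K → ∀ b : Bool,
        ¬ ∀ x ∈ K, c x = b := by
  have main : ∀ n : ℕ, ∀ (V : Type) [Fintype V] (G : SimpleGraph V), Fintype.card V = n →
      G.CliqueFree (m + 2) → C5free G → P V G →
      ∃ c : V → Bool, ∀ K : Finset V, G.IsNClique (m + 1) K → ∀ b : Bool,
        ¬ ∀ x ∈ K, c x = b := by
    intro n
    induction n using Nat.strong_induction_on with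
    | _ n ih =>
      intro V _ G hn hf h5 hP
      classical
      by_contra hcon
      push Not at hcon
      have hbad : ∀ c : V → Bool, ∃ b : Bool, ∃ K : Finset V, G.IsNClique (m + 1) K ∧
          ∀ x ∈ K, c x = b := by
        intro c
        obtain ⟨K, hK, b, hb⟩ := hcon c
        exact ⟨b, K, hK, hb⟩
      have hmin : ∀ z : V, ∃ c : V → Bool, St G m c z := by
        intro z
        apply gen_min z
        have hlt : Fintype.card ↥({z}ᶜ : Set V) < n := by
          rw [← hn]
          exact Fintype.card_subtype_lt (x := z) (by simp)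
        exact ih _ hlt ↥({z}ᶜ : Set V) (G.induce ({z}ᶜ : Set V)) rfl
          (hf.comap ⟨(SimpleGraph.Embedding.induce _).toCopy⟩) (c5free_induce _ h5)
          (hdel V G z hP)
      have hM : MinCE G m := ⟨hm, hf, hbad, hmin, h5⟩
      have hcl' : Clawfree G := hcl V G hP hM
      by_cases h2 : 2 ≤ m
      · exact no_CE hM hcl' h2
      · have hm1 : m = 1 := by omega
        subst hm1
        obtain ⟨c, hc⟩ := two_col hf (h1 rfl V G hP)
        obtain ⟨b, K, hK, hb⟩ := hbad c
        have hcard : 1 < K.card := by rw [hK.2]; omega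
        obtain ⟨x, hx, y, hy, hxy⟩ := Finset.one_lt_card.1 hcard
        exact hc x y (hK.1 hx hy hxy) ((hb x hx).trans (hb y hy).symm)
  intro V _ G hf h5 hP
  exact main _ V G rfl hf h5 hP

end Pool.Agent.H92.TD
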