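import Mathlib
import Pool.Agent.H92.TD.Gen
import Pool.Agent.H92.TD.Claw2

/-!
MP_5aa732_co: assembly of the theorem on odd-hole-free graphs without induced claw + K_2.
-/

set_option autoImplicit false
set_option linter.unusedSectionVars false
set_option linter.unusedVariables false

namespace Pool.Agent.H92.TD

open SimpleGraph Finset

variable {V : Type} [Fintype V] {G : SimpleGraph V} {m : ℕ}

/-- transfer of a clique inside `s` to the induced subgraph. -/
theorem asm_lift {s : Set V} {n : ℕ} {L : Finset V} (hL : G.IsNClique n L)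
    (hs : ∀ x ∈ L, x ∈ s) : ∃ K : Finset s, (G.induce s).IsNClique n K ∧ ∀ x : s, x ∈ K → x.1 ∈ L := by
  classical
  refine ⟨L.subtype (· ∈ s), ⟨?_, ?_⟩, ?_⟩
  · intro x hx y hy hxy
    simp only [Finset.mem_coe, Finset.mem_subtype] at hx hy
    show G.Adj x.1 y.1
    exact hL.1 hx hy (fun e => hxy (Subtype.ext e))
  · rw [Finset.card_subtype, Finset.filter_true_of_mem hs, hL.2]
  · intro x hx
    simpa using hx

/-- transfer of a clique of the induced subgraph to `G`. -/
theorem asm_push {s : Set V} {n : ℕ} {K : Finset s} (hK : (G.induce s).IsNClique n K) :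
    ∃ L : Finset V, G.IsNClique n L ∧ ∀ x ∈ L, x ∈ s := by
  classical
  refine ⟨K.map (Function.Embedding.subtype _), ⟨?_, ?_⟩, ?_⟩
  · intro x hx y hy hxy
    simp only [Finset.coe_map, Set.mem_image, Finset.mem_coe] at hx hy
    obtain ⟨x', hx', rfl⟩ := hx
    obtain ⟨y', hy', rfl⟩ := hy
    have : (G.induce s).Adj x' y' := hK.1 hx' hy' (fun e => hxy (by rw [e]))
    exact this
  · rw [Finset.card_map, hK.2]
  · intro x hx
    simp only [Finset.mem_map] at hx
    obtain ⟨x', _, rfl⟩ := hx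
    exact x'.2

/-- no induced `C_5`, pointwise form, from the embedding form. -/
theorem C5free_of_isEmpty (h5 : IsEmpty (SimpleGraph.cycleGraph 5 ↪g G)) : C5free G := by
  intro a b c d e hab hbc hcd hde hea nac nbd nce nda neb
  have hf : Function.Injective (![a, b, c, d, e] : Fin 5 → V) := by
    have e1 : a ≠ b := G.ne_of_adj hab
    have e2 : b ≠ c := G.ne_of_adj hbc
    have e3 : c ≠ d := G.ne_of_adj hcd
    have e4 : d ≠ e := G.ne_of_adj hde
    have e5 : e ≠ a := G.ne_of_adj hea
    have e6 : a ≠ c := fun h => nda (by rw [h]; exact hcd.symm)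
    have e7 : a ≠ d := fun h => nbd (by rw [← h]; exact hab.symm)
    have e8 : b ≠ d := fun h => neb (by rw [h]; exact hde.symm)
    have e9 : b ≠ e := fun h => nbd (by rw [h]; exact hde.symm)
    have e10 : c ≠ e := fun h => nac (by rw [h]; exact hea.symm)
    intro i j hij
    fin_cases i <;> fin_cases j <;> simp_all
  refine h5.false ⟨⟨(![a, b, c, d, e] : Fin 5 → V), hf⟩, ?_⟩
  intro i j
  have nca : ¬ G.Adj c a := fun h => nac h.symm
  have ndb : ¬ G.Adj d b := fun h => nbd h.symm
  have nec : ¬ G.Adj e c := fun h => nce h.symm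
  have nad : ¬ G.Adj a d := fun h => nda h.symm
  have nbe : ¬ G.Adj b e := fun h => neb h.symm
  have hba := hab.symm
  have hcb := hbc.symm
  have hdc := hcd.symm
  have hed := hde.symm
  have hae := hea.symm
  fin_cases i <;> fin_cases j <;>
    simp [SimpleGraph.cycleGraph_adj, hab, hbc, hcd, hde, hea, nac, nbd, nce, nda, neb, nca, ndb, nec, nad, nbe,
      hba, hcb, hdc, hed, hae] <;> decide

/-- no induced claw + K_2, pointwise form, from the embedding form. -/
theorem ClawK2free_of
    (h : IsEmpty ((completeBipartiteGraph (Fin 1) (Fin 3) ⊕g (⊤ : SimpleGraph (Fin 2))) ↪g G)) :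
    ClawK2free G := by
  intro v a b c k l hva hvb hvc hab hbc hac nab nbc nac hkl nkv nka nkb nkc nlv nla nlb nlc
  have hkv : k ≠ v := fun h => nlv (by rw [← h]; exact hkl.symm)
  have hlv : l ≠ v := fun h => nkv (by rw [← h]; exact hkl)
  have hka : k ≠ a := fun h => nkv (by rw [h]; exact hva.symm)
  have hkb : k ≠ b := fun h => nkv (by rw [h]; exact hvb.symm)
  have hkc : k ≠ c := fun h => nkv (by rw [h]; exact hvc.symm)
  have hla : l ≠ a := fun h => nlv (by rw [h]; exact hva.symm)
  have hlb : l ≠ b := fun h => nlv (by rw [h]; exact hvb.symm)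
  have hlc : l ≠ c := fun h => nlv (by rw [h]; exact hvc.symm)
  have hkl' : k ≠ l := G.ne_of_adj hkl
  have e1 : v ≠ a := G.ne_of_adj hva
  have e2 : v ≠ b := G.ne_of_adj hvb
  have e3 : v ≠ c := G.ne_of_adj hvc
  let f : (Fin 1 ⊕ Fin 3) ⊕ Fin 2 → V :=
    Sum.elim (Sum.elim (fun _ => v) (![a, b, c])) (![k, l])
  have hf : Function.Injective f := by
    intro x y hxy
    rcases x with (x | x) | x <;> rcases y with (y | y) | y <;> fin_cases x <;> fin_cases y <;>
      simp_all [f]
  refine h.false ⟨⟨f, hf⟩, ?_⟩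
  intro x y
  have nba : ¬ G.Adj b a := fun h => nab h.symm
  have ncb : ¬ G.Adj c b := fun h => nbc h.symm
  have nca : ¬ G.Adj c a := fun h => nac h.symm
  have nvk : ¬ G.Adj v k := fun h => nkv h.symm
  have nak : ¬ G.Adj a k := fun h => nka h.symm
  have nbk : ¬ G.Adj b k := fun h => nkb h.symm
  have nck : ¬ G.Adj c k := fun h => nkc h.symm
  have nvl : ¬ G.Adj v l := fun h => nlv h.symm
  have nal : ¬ G.Adj a l := fun h => nla h.symm
  have nbl : ¬ G.Adj b l := fun h => nlb h.symm
  have ncl : ¬ G.Adj c l := fun h => nlc h.symm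
  have hav := hva.symm
  have hbv := hvb.symm
  have hcv := hvc.symm
  have hlk := hkl.symm
  rcases x with (x | x) | x <;> rcases y with (y | y) | y <;> fin_cases x <;> fin_cases y <;>
    simp [f, hva, hvb, hvc, nab, nbc, nac, nkv, nka, nkb, nkc, nba, ncb, nca, nvk, nak, nbk, nck, hav, hbv, hcv,
      nlv, nla, nlb, nlc, nvl, nal, nbl, ncl, hkl, hlk]

theorem clawK2free_induce (s : Set V) (hk : ClawK2free G) : ClawK2free (G.induce s) := by
  intro v a b c k l hva hvb hvc hab hbc hac nab nbc nac hkl nkv nka nkb nkc nlv nla nlb nlc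
  exact hk v a b c k l hva hvb hvc (fun h => hab (Subtype.ext h)) (fun h => hbc (Subtype.ext h))
    (fun h => hac (Subtype.ext h)) nab nbc nac hkl nkv nka nkb nkc nlv nla nlb nlc

/-- From the colouring theorem for all induced subgraphs to 2-divisions of all vertex sets. -/
theorem asm_back_gen [DecidableEq V] (P : ∀ V : Type, SimpleGraph V → Prop)
    (S : Finset V)
    (hcore : ∀ m : ℕ, 1 ≤ m → (G.induce (S : Set V)).CliqueFree (m + 2) →
      (∃ T : Finset V, T ⊆ S ∧ G.IsNClique (m + 1) T) →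
      ∃ c : ↥(S : Set V) → Bool, ∀ K : Finset ↥(S : Set V), (G.induce (S : Set V)).IsNClique (m + 1) K →
        ∀ b : Bool, ¬ ∀ x ∈ K, c x = b)
    (hS : ∃ u ∈ S, ∃ v ∈ S, G.Adj u v) :
    ∃ A : Finset V, A ⊆ S ∧
      (∀ T : Finset V, T ⊆ A → G.IsClique (T : Set V) →
          ∃ T' : Finset V, T' ⊆ S ∧ G.IsClique (T' : Set V) ∧ T.card < T'.card) ∧
      (∀ T : Finset V, T ⊆ S \ A → G.IsClique (T : Set V) →
          ∃ T' : Finset V, T' ⊆ S ∧ G.IsClique (T' : Set V) ∧ T.card < T'.card) := by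
  classical
  obtain ⟨u, hu, v, hv, huv⟩ := hS
  -- a largest clique inside `S`
  obtain ⟨T₀, hT₀, hmax⟩ := Finset.exists_max_image
    (S.powerset.filter (fun T : Finset V => G.IsClique (T : Set V))) (fun T : Finset V => T.card)
    ⟨∅, by simp⟩
  rw [Finset.mem_filter, Finset.mem_powerset] at hT₀
  have hmax' : ∀ T : Finset V, T ⊆ S → G.IsClique (T : Set V) → T.card ≤ T₀.card := by
    intro T hT hTc
    exact hmax T (by rw [Finset.mem_filter, Finset.mem_powerset]; exact ⟨hT, hTc⟩)
  have h2 : 2 ≤ T₀.card := by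
    have h3 : G.IsClique (({u, v} : Finset V) : Set V) := by
      intro x hx y hy hxy
      simp only [Finset.coe_insert, Finset.coe_singleton, Set.mem_insert_iff,
        Set.mem_singleton_iff] at hx hy
      rcases hx with rfl | rfl <;> rcases hy with rfl | rfl
      · exact absurd rfl hxy
      · exact huv
      · exact huv.symm
      · exact absurd rfl hxy
    have h4 := hmax' {u, v} (by
      intro x hx
      simp only [Finset.mem_insert, Finset.mem_singleton] at hx
      rcases hx with rfl | rfl <;> assumption) h3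
    rwa [Finset.card_pair (G.ne_of_adj huv)] at h4
  obtain ⟨m, hm⟩ : ∃ m, T₀.card = m + 1 := ⟨T₀.card - 1, by omega⟩
  have hm1 : 1 ≤ m := by omega
  have hfree : (G.induce (S : Set V)).CliqueFree (m + 2) := by
    intro K hK
    obtain ⟨L, hL, hLS⟩ := asm_push hK
    have := hmax' L (fun x hx => by simpa using hLS x hx) hL.1
    rw [hL.2] at this
    omega
  obtain ⟨c, hc⟩ := hcore m hm1 hfree ⟨T₀, hT₀.1, hT₀.2, hm⟩
  have key : ∀ (b : Bool) (T : Finset V), (∀ x ∈ T, ∃ h : x ∈ (S : Set V), c ⟨x, h⟩ = b) →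
      G.IsClique (T : Set V) →
      ∃ T' : Finset V, T' ⊆ S ∧ G.IsClique (T' : Set V) ∧ T.card < T'.card := by
    intro b T hT hTc
    refine ⟨T₀, hT₀.1, hT₀.2, ?_⟩
    by_contra hlt
    push Not at hlt
    obtain ⟨L, hLT, hL⟩ := sub_clique (n := m + 1) hTc (by omega)
    obtain ⟨K, hK, hKL⟩ := asm_lift (s := (S : Set V)) hL (fun x hx => (hT x (hLT hx)).1)
    refine hc K hK b ?_
    intro x hx
    obtain ⟨h1, h2⟩ := hT x.1 (hLT (hKL x hx))
    exact h2
  refine ⟨S.filter (fun x => ∃ h : x ∈ (S : Set V), c ⟨x, h⟩ = true), Finset.filter_subset _ _,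
    ?_, ?_⟩
  · intro T hT hTc
    refine key true T ?_ hTc
    intro x hx
    exact (Finset.mem_filter.1 (hT hx)).2
  · intro T hT hTc
    refine key false T ?_ hTc
    intro x hx
    have h1 := hT hx
    rw [Finset.mem_sdiff, Finset.mem_filter] at h1
    refine ⟨by exact_mod_cast h1.1, ?_⟩
    by_contra h3
    refine h1.2 ⟨h1.1, by exact_mod_cast h1.1, ?_⟩
    simpa using h3

/-- The class without induced claw + K_2: the core statement. -/
theorem core_k2 (m : ℕ) (hm : 1 ≤ m) (V : Type) [Fintype V] (G : SimpleGraph V)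
    (hf : G.CliqueFree (m + 2)) (h5 : C5free G) (hk : ClawK2free G)
    (ho : m = 1 → OddHoleFree G) :
    ∃ c : V → Bool, ∀ K : Finset V, G.IsNClique (m + 1) K → ∀ b : Bool, ¬ ∀ x ∈ K, c x = b := by
  refine core_gen m hm (fun V G => ClawK2free G ∧ (m = 1 → OddHoleFree G)) ?_ ?_ ?_ V G hf h5
    ⟨hk, ho⟩
  · intro V _ G z hP
    exact ⟨clawK2free_induce _ hP.1, fun h => oddHoleFree_induce _ (hP.2 h)⟩
  · intro V _ G hP hM
    exact clawfree_of2 hM hP.1
  · intro h V _ G hP
    exact hP.2 h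

/-- odd-hole-free and no induced claw + K_2 gives a 2-division of every `S` with an edge. -/
theorem asm_back2 [DecidableEq V] (ho : OddHoleFree G) (hk : ClawK2free G) (S : Finset V)
    (hS : ∃ u ∈ S, ∃ v ∈ S, G.Adj u v) :
    ∃ A : Finset V, A ⊆ S ∧
      (∀ T : Finset V, T ⊆ A → G.IsClique (T : Set V) →
          ∃ T' : Finset V, T' ⊆ S ∧ G.IsClique (T' : Set V) ∧ T.card < T'.card) ∧
      (∀ T : Finset V, T ⊆ S \ A → G.IsClique (T : Set V) →
          ∃ T' : Finset V, T' ⊆ S ∧ G.IsClique (T' : Set V) ∧ T.card < T'.card) := by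
  refine asm_back_gen (fun _ _ => True) S ?_ hS
  intro m hm hf _
  exact core_k2 m hm _ _ hf (c5free_induce _ (C5free_of ho)) (clawK2free_induce _ hk)
    (fun _ => oddHoleFree_induce _ ho)

/-- no induced `C_5` and no induced claw + K_2 gives a 2-division of every `S` with a triangle. -/
theorem asm_back3 [DecidableEq V] (h5 : C5free G) (hk : ClawK2free G) (S : Finset V)
    (hS : ∃ T : Finset V, T ⊆ S ∧ G.IsNClique 3 T) :
    ∃ A : Finset V, A ⊆ S ∧
      (∀ T : Finset V, T ⊆ A → G.IsClique (T : Set V) →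
          ∃ T' : Finset V, T' ⊆ S ∧ G.IsClique (T' : Set V) ∧ T.card < T'.card) ∧
      (∀ T : Finset V, T ⊆ S \ A → G.IsClique (T : Set V) →
          ∃ T' : Finset V, T' ⊆ S ∧ G.IsClique (T' : Set V) ∧ T.card < T'.card) := by
  obtain ⟨T, hT, hTc⟩ := hS
  refine asm_back_gen (fun _ _ => True) S ?_ ?_
  · intro m hm hf _
    refine core_k2 m hm _ _ hf (c5free_induce _ h5) (clawK2free_induce _ hk) ?_
    intro h
    subst h
    obtain ⟨K, hK, _⟩ := asm_lift (s := (S : Set V)) hTc (fun x hx => by exact_mod_cast hT hx)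
    exact absurd hK (hf K)
  · have h1 : 1 < T.card := by rw [hTc.2]; omega
    obtain ⟨x, hx, y, hy, hxy⟩ := Finset.one_lt_card.1 h1
    exact ⟨x, hT hx, y, hT hy, hTc.1 hx hy hxy⟩

/-- cycles of odd length at least five have no triangle. -/
theorem asm_tri {k : ℕ} (hk : 2 ≤ k) {x y z : Fin (2 * k + 1)}
    (hxy : (SimpleGraph.cycleGraph (2 * k + 1)).Adj x y)
    (hyz : (SimpleGraph.cycleGraph (2 * k + 1)).Adj y z)
    (hxz : (SimpleGraph.cycleGraph (2 * k + 1)).Adj x z) : False := by
  rw [SimpleGraph.cycleGraph_adj'] at hxy hyz hxz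
  have e : ∀ a b : Fin (2 * k + 1), (a - b).val = 1 →
      a.val = b.val + 1 ∨ (a.val = 0 ∧ b.val = 2 * k) := by
    intro a b hab
    rw [Fin.sub_def] at hab
    simp only at hab
    have ha := a.2
    have hb := b.2
    rcases Nat.lt_or_ge (2 * k + 1 - b.val + a.val) (2 * k + 1) with h | h
    · rw [Nat.mod_eq_of_lt h] at hab
      omega
    · rw [Nat.mod_eq_sub_mod h, Nat.mod_eq_of_lt (by omega)] at hab
      omega
  have hx := x.2
  have hy := y.2
  have hz := z.2
  rcases hxy with h1 | h1 <;> rcases hyz with h2 | h2 <;> rcases hxz with h3 | h3 <;>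
    (have h1' := e _ _ h1; have h2' := e _ _ h2; have h3' := e _ _ h3; omega)

/-- A 2-divisible graph has no odd hole. -/
theorem asm_forw [DecidableEq V]
    (h2 : ∀ S : Finset V, (∃ u ∈ S, ∃ v ∈ S, G.Adj u v) →
        ∃ A : Finset V, A ⊆ S ∧
          (∀ T : Finset V, T ⊆ A → G.IsClique (T : Set V) →
              ∃ T' : Finset V, T' ⊆ S ∧ G.IsClique (T' : Set V) ∧ T.card < T'.card) ∧
          (∀ T : Finset V, T ⊆ S \ A → G.IsClique (T : Set V) →
              ∃ T' : Finset V, T' ⊆ S ∧ G.IsClique (T' : Set V) ∧ T.card < T'.card)) :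
    OddHoleFree G := by
  classical
  intro k hk
  refine ⟨fun f => ?_⟩
  obtain ⟨x0, y0, h0, _⟩ := cycle_not_two_col hk (fun _ => true)
  obtain ⟨A, hA, hA1, hA2⟩ := h2 (Finset.univ.map f.toEmbedding)
    ⟨f x0, by simp, f y0, by simp, f.map_rel_iff.2 h0⟩
  obtain ⟨x, y, hxy, hc⟩ := cycle_not_two_col hk (fun i => decide (f i ∈ A))
  have hcl : G.IsClique (({f x, f y} : Finset V) : Set V) := by
    intro a ha b hb hab
    simp only [Finset.coe_insert, Finset.coe_singleton, Set.mem_insert_iff,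
      Set.mem_singleton_iff] at ha hb
    have hfe : G.Adj (f x) (f y) := f.map_rel_iff.2 hxy
    rcases ha with rfl | rfl <;> rcases hb with rfl | rfl
    · exact absurd rfl hab
    · exact hfe
    · exact hfe.symm
    · exact absurd rfl hab
  have hcard : ({f x, f y} : Finset V).card = 2 := by
    rw [Finset.card_pair]
    intro e
    exact (SimpleGraph.cycleGraph (2 * k + 1)).ne_of_adj hxy (f.injective e)
  have key : ∃ T' : Finset V, T' ⊆ Finset.univ.map f.toEmbedding ∧ G.IsClique (T' : Set V) ∧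
      2 < T'.card := by
    by_cases hx : f x ∈ A
    · have hy : f y ∈ A := by simpa [hx] using hc
      obtain ⟨T', h1, h2, h3⟩ := hA1 {f x, f y} (by
        intro a ha
        simp only [Finset.mem_insert, Finset.mem_singleton] at ha
        rcases ha with rfl | rfl <;> assumption) hcl
      exact ⟨T', h1, h2, by omega⟩
    · have hy : f y ∉ A := by simpa [hx] using hc
      obtain ⟨T', h1, h2, h3⟩ := hA2 {f x, f y} (by
        intro a ha
        simp only [Finset.mem_insert, Finset.mem_singleton] at ha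
        rw [Finset.mem_sdiff]
        rcases ha with rfl | rfl
        · exact ⟨by simp, hx⟩
        · exact ⟨by simp, hy⟩) hcl
      exact ⟨T', h1, h2, by omega⟩
  obtain ⟨T', h1, h2, h3⟩ := key
  obtain ⟨a, b, c, ha, hb, hc', hab, hac, hbc⟩ := (Finset.two_lt_card_iff).1 h3
  have ga : ∀ t ∈ T', ∃ i, f i = t := by
    intro t ht
    have := h1 ht
    simpa using this
  obtain ⟨i, rfl⟩ := ga a ha
  obtain ⟨j, rfl⟩ := ga b hb
  obtain ⟨l, rfl⟩ := ga c hc'
  exact asm_tri hk (f.map_rel_iff.1 (h2 ha hb hab)) (f.map_rel_iff.1 (h2 hb hc' hbc))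
    (f.map_rel_iff.1 (h2 ha hc' hac))

end Pool.Agent.H92.TD
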