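import Mathlib
import Pool.Agent.H92.TD.Defs
import Pool.Agent.H92.TD.Claw
import Pool.Agent.H92.TD.Step7
import Pool.Agent.H92.TD.Step8b
import Pool.Agent.H92.TD.Cycle
import Pool.Agent.H92.TD.Conv

/-!
Row TD_Main.  The induction.  Strong induction on Fintype.card V (for all V : Type, all G).
Suppose no such colouring: bad: ∀ c, ∃ b K, (m+1)-clique, constant = b on K.  Let z : V.  W := {x // x ≠ z} = ↥({z}ᶜ : Set V), G.induce {z}ᶜ is CliqueFree (m+2) (a clique of the induced graph
maps to a clique of G: `Finset.map (Function.Embedding.subtype _)`, or `CliqueFree.comap`), OddHoleFree (`oddHoleFree_induce`), ClawK1free (`clawK1free_induce`), card smaller.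
IH: colouring c0 of W.  c x := if x ≠ z then c0 x else true.  St G m c z: if K is an (m+1)-clique of G with constant colour b and z ∉ K, then K.subtype (· ≠ z) (or the preimage) is an (m+1)-clique
of the induced graph of constant colour b under c0: contradiction.  So `MinCE G m` (c5 := C5free_of).
`clawfree_of`.  If m ≥ 2: `no_CE`.  If m = 1: `two_col` (CliqueFree 3) gives c proper; `bad c` gives a 2-clique K = {x,y} with x ~ y, c x = c y: contradiction.
-/

set_option autoImplicit false
set_option linter.unusedSectionVars false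
set_option linter.unusedVariables false

namespace Pool.Agent.H92.TD

open SimpleGraph Finset

variable {V : Type} [Fintype V] {G : SimpleGraph V} {m : ℕ}

theorem main_min {m n : ℕ}
    (ih : ∀ k : ℕ, k < n → ∀ (V : Type) [Fintype V] (G : SimpleGraph V), Fintype.card V = k →
      G.CliqueFree (m + 2) → OddHoleFree G → ClawK1free G →
      ∃ c : V → Bool, ∀ K : Finset V, G.IsNClique (m + 1) K → ∀ b : Bool, ¬ ∀ x ∈ K, c x = b)
    {V : Type} [Fintype V] {G : SimpleGraph V} (hn : Fintype.card V = n)
    (hf : G.CliqueFree (m + 2)) (ho : OddHoleFree G) (hk : ClawK1free G) (z : V) :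
    ∃ c : V → Bool, St G m c z := by
  classical
  have hlt : Fintype.card ↥({z}ᶜ : Set V) < n := by
    rw [← hn]
    exact Fintype.card_subtype_lt (x := z) (by simp)
  have hf' : (G.induce ({z}ᶜ : Set V)).CliqueFree (m + 2) :=
    hf.comap ⟨(SimpleGraph.Embedding.induce _).toCopy⟩
  obtain ⟨c0, hc0⟩ := ih _ hlt ↥({z}ᶜ : Set V) (G.induce ({z}ᶜ : Set V)) rfl hf'
    (oddHoleFree_induce _ ho) (clawK1free_induce _ hk)
  refine ⟨fun x => if hx : x ∈ ({z}ᶜ : Set V) then c0 ⟨x, hx⟩ else true, ?_⟩
  intro K hK b hb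
  by_contra hz
  have hmem : ∀ x ∈ K, x ∈ ({z}ᶜ : Set V) := by
    intro x hx
    simp only [Set.mem_compl_iff, Set.mem_singleton_iff]
    rintro rfl
    exact hz hx
  refine hc0 (K.subtype (fun x => x ∈ ({z}ᶜ : Set V))) ?_ b ?_
  · refine ⟨?_, ?_⟩
    · intro x hx y hy hxy
      rw [Finset.mem_coe, Finset.mem_subtype] at hx hy
      exact hK.1 hx hy (fun e => hxy (Subtype.ext e))
    · rw [Finset.card_subtype, Finset.filter_true_of_mem hmem]
      exact hK.2
  · intro x hx
    rw [Finset.mem_subtype] at hx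
    have h1 := hb x.1 hx
    have h2 : (if hx : x.1 ∈ ({z}ᶜ : Set V) then c0 ⟨x.1, hx⟩ else true) = b := h1
    rw [dif_pos x.2] at h2
    exact h2

theorem core_td (m : ℕ) (hm : 1 ≤ m) : ∀ (V : Type) [Fintype V] (G : SimpleGraph V),
    G.CliqueFree (m + 2) → OddHoleFree G → ClawK1free G →
    ∃ c : V → Bool, ∀ K : Finset V, G.IsNClique (m + 1) K → ∀ b : Bool, ¬ ∀ x ∈ K, c x = b := by
  have main : ∀ n : ℕ, ∀ (V : Type) [Fintype V] (G : SimpleGraph V), Fintype.card V = n →
      G.CliqueFree (m + 2) → OddHoleFree G → ClawK1free G →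
      ∃ c : V → Bool, ∀ K : Finset V, G.IsNClique (m + 1) K → ∀ b : Bool,
        ¬ ∀ x ∈ K, c x = b := by
    intro n
    induction n using Nat.strong_induction_on with
    | _ n ih =>
      intro V _ G hn hf ho hk
      by_contra hcon
      push Not at hcon
      have hbad : ∀ c : V → Bool, ∃ b : Bool, ∃ K : Finset V, G.IsNClique (m + 1) K ∧
          ∀ x ∈ K, c x = b := by
        intro c
        obtain ⟨K, hK, b, hb⟩ := hcon c
        exact ⟨b, K, hK, hb⟩
      have hmin : ∀ z : V, ∃ c : V → Bool, St G m c z := by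
        intro z
        exact main_min ih hn hf ho hk z
      have hM : MinCE G m := ⟨hm, hf, hbad, hmin, C5free_of ho⟩
      have hcl : Clawfree G := clawfree_of hM hk
      by_cases h2 : 2 ≤ m
      · exact no_CE hM hcl h2
      · have hm1 : m = 1 := by omega
        subst hm1
        obtain ⟨c, hc⟩ := two_col hf ho
        obtain ⟨b, K, hK, hb⟩ := hbad c
        have hcard : 1 < K.card := by rw [hK.2]; omega
        obtain ⟨x, hx, y, hy, hxy⟩ := Finset.one_lt_card.1 hcard
        exact hc x y (hK.1 hx hy hxy) ((hb x hx).trans (hb y hy).symm)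
  intro V _ G hf ho hk
  exact main _ V G rfl hf ho hk

end Pool.Agent.H92.TD
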